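import Pool.Agent.Run7.h24.U.A2b

/-! LemP2, second part: the counting argument. -/

set_option autoImplicit false
set_option linter.unusedVariables false
set_option linter.unusedSectionVars false

namespace Run7.h24.U

open Finset Pool.Q11.TwoEnd Pool.Q6.CI Run7.h932

section A2

variable {V : Type} [Fintype V] [DecidableEq V]
variable {K : SimpleGraph V} {k : ℕ} {Φ : V → Finset ℕ} {x : V} {c : V → V → ℕ} {S : Finset V}

theorem Cx.cg (H : Cx K k Φ x) (g : ℕ) : ((univ.filter fun v => g ∈ Φ v).erase x).card ≤ 2 :=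
  (card_le_card (erase_subset _ _)).trans (H.c2 g)

theorem Cx.cgx (H : Cx K k Φ x) {g : ℕ} (hg : g ∈ Φ x) :
    ((univ.filter fun v => g ∈ Φ v).erase x).card ≤ 1 := by
  have h1 : x ∈ univ.filter fun v => g ∈ Φ v := mem_filter.2 ⟨mem_univ _, hg⟩
  rw [card_erase_of_mem h1]
  have := H.c2 g
  unfold cl at this
  omega

/-- count, in the form used below: bounds for the three kinds of colours -/
theorem count_le (H : Cx K k Φ x) (hc : VC (delV K x) k Φ c) (A : Finset V) (hA : A ⊆ nb K x)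
    (a b d : ℕ) (hR : ∑ g ∈ FR k Φ, (W K k Φ x c A g).card ≤ a)
    (hN : ∑ g ∈ NN K k Φ x c A, (W K k Φ x c A g).card ≤ b)
    (hx : ∀ g ∈ Φ x, (W K k Φ x c A g).card ≤ d) : 2 * A.card ≤ a + b + d := by
  have h1 := total (K := K) (c := c) (H.sub x) A
  have h2 : A.card * 2 ≤ ∑ w ∈ A, (avl (delV K x) k Φ c w).card := by
    rw [← smul_eq_mul]
    exact card_nsmul_le_sum _ _ _ fun w hw => H.two hc (hA hw)
  have h3 : ∑ g ∈ Φ x, (W K k Φ x c A g).card ≤ (Φ x).card * d := by
    rw [← smul_eq_mul]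
    exact sum_le_card_nsmul _ _ _ hx
  have h4 : (Φ x).card * d ≤ 1 * d := Nat.mul_le_mul_right _ H.px
  omega

/-- (d) -/
theorem pos (H : Cx K k Φ x) (E : Ext K k Φ x c S) {b : ℕ} (hb : b ∈ FR k Φ) :
    0 < (W K k Φ x c S b).card := by
  by_contra hcon
  have h0 : (W K k Φ x c S b).card = 0 := by omega
  have h1 := count_le H E.st.vc S E.st.sub (((FR k Φ).card - 1) * 2)
    ((NN K k Φ x c S).card * 2) 1 ?_ ?_ ?_
  · have h2 := E.st.eq
    have h3 : 0 < (FR k Φ).card := card_pos.2 ⟨b, hb⟩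
    omega
  · rw [← add_sum_erase _ _ hb, h0, zero_add, ← card_erase_of_mem hb, ← smul_eq_mul]
    exact sum_le_card_nsmul _ _ _ fun g hg => le_two H E (mem_of_mem_erase hg)
  · rw [← smul_eq_mul]
    refine sum_le_card_nsmul _ _ _ fun g hg => ?_
    by_contra h
    have h2 := count_c E hb (Or.inl ⟨(mem_NN.1 hg).2, by omega⟩) ∅ (by simp)
    rw [sdiff_empty, sdiff_empty] at h2
    have := H.cg g
    omega
  · intro g hg
    have h2 := count_c E hb (Or.inr hg) ∅ (by simp)
    rw [sdiff_empty, sdiff_empty] at h2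
    have := H.cgx hg
    omega

/-- components of good vertices do not end at the pair -/
theorem noend (H : Cx K k Φ x) (hc : VC (delV K x) k Φ c) {g b : ℕ} (hb : b ∈ FR k Φ)
    {u t t' : V} (hgu : g ∈ avl (delV K x) k Φ c u) (ht : b ∈ avl (delV K x) k Φ c t)
    (ht' : b ∈ avl (delV K x) k Φ c t') (h1 : u ≠ t) (h2 : u ≠ t') (h3 : t ≠ t')
    (hu : bn Φ u ≤ 1) (hJ : Jn K k Φ x c u t') : ¬ Rel (delV K x) c g b u t := by
  intro hr
  have hmu : Miss (delV K x) c u g := avl_miss hgu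
  have hmt : Miss (delV K x) c t b := avl_miss ht
  have hmt' : Miss (delV K x) c t' b := avl_miss ht'
  have hends : ∀ z, Rel (delV K x) c g b u z → Miss (delV K x) c z g → z = u := by
    intro z hz hm
    rcases three hc.pc hr hz (Or.inl hmu) (Or.inr hmt) (Or.inl hm) with h | h | h
    · exact absurd h h1
    · exact h.symm
    · rw [← h] at hm
      exact absurd (iso hc.pc hm hmt hr.symm) h1
  have ht'n : ¬ Rel (delV K x) c g b u t' := by
    intro h
    rcases three hc.pc hr h (Or.inl hmu) (Or.inr hmt) (Or.inr hmt') with h | h | h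
    · exact h1 h
    · exact h2 h
    · exact h3 h
  have hQ : ∀ z, Rel (delV K x) c g b u z → g ∉ Φ z := by
    intro z hz hgz
    have := hends z hz (phi_miss hc hgz)
    rw [this] at hgz
    exact (mem_avl.1 hgu).2.1 hgz
  obtain ⟨c', hs⟩ := doSwap hc (mem_avl.1 hgu).1 hb u hQ
  obtain ⟨F, hF, hFc, huF, htF, f, hf, hm⟩ := hJ
  refine H.mp2 c' hs.vc F hF hFc ⟨f, hf, ?_⟩ u huF t' htF h2 hu b hb
    ((hs.in_b Rel.rfl').2 hgu) (by rw [hs.out t' ht'n]; exact ht')
  intro z hz
  have hzm := hm z hz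
  refine ⟨?_, hzm.2⟩
  by_cases hzr : Rel (delV K x) c g b u z
  · by_cases hfg : f z = g
    · exfalso
      have h4 : Miss (delV K x) c z g := by
        have := avl_miss hzm.1
        rwa [hfg] at this
      have := hends z hzr h4
      rw [this] at hz
      exact (mem_sdiff.1 hz).2 huF
    · exact (hs.other hfg (fr_nf hb hzm.2) z).2 hzm.1
  · rw [hs.out z hzr]
    exact hzm.1

/-- (h) -/
theorem lemH (H : Cx K k Φ x) (E : Ext K k Φ x c S) {b : ℕ} (hb : b ∈ FR k Φ) {v w : V}
    (hvw : v ≠ w) (hW : W K k Φ x c S b = {v, w}) {X : Finset V} (hX : X ⊆ S) (hvX : v ∉ X)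
    (hwX : w ∉ X) (hXc : X.card = (NN K k Φ x c X).card + (FR k Φ).card)
    (hXJ : ∀ u ∈ X, ∀ u' ∈ S, u' ∉ X → Jn K k Φ x c u u')
    (hG : ∀ b' ∈ FR k Φ, b' ≠ b → ¬ W K k Φ x c S b' ⊆ X) : False := by
  classical
  have hv : v ∈ S ∧ b ∈ avl (delV K x) k Φ c v := mem_W.1 (by rw [hW]; simp)
  have hw : w ∈ S ∧ b ∈ avl (delV K x) k Φ c w := mem_W.1 (by rw [hW]; simp)
  -- no free colours at good vertices
  have h1 : ∀ u ∈ X, bn Φ u ≤ 1 → ∀ b' ∈ FR k Φ, b' ∉ avl (delV K x) k Φ c u := by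
    intro u hu hgood b' hb' hcon
    by_cases hbb : b' = b
    · subst hbb
      have : u ∈ W K k Φ x c S b' := mem_W.2 ⟨hX hu, hcon⟩
      rw [hW, mem_insert, mem_singleton] at this
      rcases this with rfl | rfl
      · exact hvX hu
      · exact hwX hu
    · obtain ⟨u', hu', hu'X⟩ := not_subset.1 (hG b' hb' hbb)
      have hu'' := mem_W.1 hu'
      obtain ⟨F, hF, hFc, huF, hu'F, hl⟩ := hXJ u hu u' hu''.1 hu'X
      exact H.mp2 c E.st.vc F hF hFc hl u huF u' hu'F (fun h => hu'X (h ▸ hu)) hgood b' hb' hcon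
        hu''.2
  set A := X.filter fun u => bn Φ u ≤ 1 with hA
  have hAX : A ⊆ X := filter_subset _ _
  -- the targets
  have h2 : ∀ g, ((g ∈ NF k Φ x ∧ 3 ≤ (W K k Φ x c S g).card) ∨ g ∈ Φ x) →
      (W K k Φ x c A g).card ≤ ((univ.filter fun v => g ∈ Φ v).erase x).card := by
    intro g hg
    refine inj_count (g := g) (b := b) E.st.vc.pc _ _ ?_
    intro u hu
    rw [mem_W, hA, mem_filter] at hu
    obtain ⟨⟨huX, hgood⟩, hgu⟩ := hu
    refine ⟨Or.inl (avl_miss hgu), ?_⟩
    obtain ⟨t, ht, ht'⟩ := target E hb (hX huX) hgu (h1 u huX hgood b hb) hg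
    rcases ht' with ⟨h3, h4⟩ | h3
    · refine ⟨t, mem_erase.2 ⟨h4, mem_filter.2 ⟨mem_univ _, h3⟩⟩, ht,
        Or.inl (phi_miss E.st.vc h3), ?_⟩
      intro h5
      rw [h5] at h3
      exact absurd h3 (mem_avl.1 hgu).2.1
    · exfalso
      rw [hW, mem_insert, mem_singleton] at h3
      have huv : u ≠ v := fun h => hvX (h ▸ huX)
      have huw : u ≠ w := fun h => hwX (h ▸ huX)
      rcases h3 with rfl | rfl
      · exact noend H E.st.vc hb hgu hv.2 hw.2 huv huw hvw hgood (hXJ u huX w hw.1 hwX) ht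
      · exact noend H E.st.vc hb hgu hw.2 hv.2 huw huv hvw.symm hgood (hXJ u huX v hv.1 hvX) ht
  have h3 := count_le H E.st.vc A (hAX.trans (hX.trans E.st.sub)) 0
    ((NN K k Φ x c X).card * 2) 1 ?_ ?_ ?_
  · have h4 : (X.filter fun u => ¬ bn Φ u ≤ 1).card ≤ m2 k Φ := H.bad' _ (by
      intro u hu
      have := (mem_filter.1 hu).2
      omega)
    have h5 := card_filter_add_card_filter_not (s := X) (fun u => bn Φ u ≤ 1)
    have h6 := H.rm2
    rw [← hA] at h5
    omega
  · refine (sum_eq_zero ?_).le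
    intro g hg
    rw [card_eq_zero, eq_empty_iff_forall_notMem]
    intro u hu
    rw [mem_W, hA, mem_filter] at hu
    exact h1 u hu.1.1 hu.1.2 g hg hu.2
  · have h4 : ∑ g ∈ NN K k Φ x c A, (W K k Φ x c A g).card ≤
        (NN K k Φ x c A).card * 2 := by
      rw [← smul_eq_mul]
      refine sum_le_card_nsmul _ _ _ fun g hg => ?_
      by_cases h5 : 3 ≤ (W K k Φ x c S g).card
      · exact (h2 g (Or.inl ⟨(mem_NN.1 hg).2, h5⟩)).trans (H.cg g)
      · have h6 : (W K k Φ x c A g).card ≤ (W K k Φ x c S g).card := by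
          apply card_le_card
          intro z hz
          rw [mem_W] at hz ⊢
          exact ⟨hX (hAX hz.1), hz.2⟩
        omega
    have h5 := card_le_card (NN_mono (K := K) (k := k) (Φ := Φ) (x := x) (c := c) hAX)
    omega
  · intro g hg
    exact (h2 g (Or.inr hg)).trans (H.cgx hg)

/-- parallel pairs -/
def par (K : SimpleGraph V) (k : ℕ) (Φ : V → Finset ℕ) (x : V) (c : V → V → ℕ)
    (S : Finset V) (b : ℕ) : Prop :=
  ∃ v w, v ≠ w ∧ W K k Φ x c S b = {v, w} ∧ ¬ Jn K k Φ x c v w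

open Classical in
/-- the number of the parallel pairs -/
noncomputable def Dp (K : SimpleGraph V) (k : ℕ) (Φ : V → Finset ℕ) (x : V) (c : V → V → ℕ)
    (S : Finset V) : ℕ := ((FR k Φ).filter (par K k Φ x c S)).card

/-- the sum over the free colours, counted at the vertices -/
theorem Om_eq (c : V → V → ℕ) (S : Finset V) : Om K k Φ x c S =
    ∑ w ∈ S, ((FR k Φ).filter fun a => a ∈ avl (delV K x) k Φ c w).card := by
  unfold Om
  have h1 : ∀ a ∈ FR k Φ, (W K k Φ x c S a).card =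
      ∑ w ∈ S, if a ∈ avl (delV K x) k Φ c w then 1 else 0 := by
    intro a _
    rw [← card_filter]
    rfl
  rw [sum_congr rfl h1, sum_comm]
  refine sum_congr rfl fun w _ => ?_
  rw [← card_filter]

/-- swapping two free colours -/
theorem free_swap (H : Cx K k Φ x) (E : Ext K k Φ x c S) {b b' : ℕ} (hb : b ∈ FR k Φ)
    (hb' : b' ∈ FR k Φ) (hbb : b' ≠ b) (v : V) : ∃ c', Sw K k Φ x c c' b' b v ∧
      Ext K k Φ x c' S ∧ ∀ u w, Jn K k Φ x c u w → Jn K k Φ x c' u w := by
  obtain ⟨c', hs⟩ := doSwap E.st.vc (mem_FR.1 hb').1 hb v (fun z _ => (mem_FR.1 hb').2 z)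
  have h1 : ∀ a ∈ NF k Φ x, ∀ z,
      (a ∈ avl (delV K x) k Φ c' z ↔ a ∈ avl (delV K x) k Φ c z) :=
    fun a ha z => hs.other (fr_nf hb' ha) (fr_nf hb ha) z
  have hst : Stt K k Φ x c' S := stt_swap E hs.vc b' (fun a ha _ z => h1 a ha z)
    (fun h => absurd rfl (fr_nf hb' h))
  have hOm : Om K k Φ x c' S = Om K k Φ x c S := by
    rw [Om_eq, Om_eq]
    refine sum_congr rfl fun w _ => ?_
    by_cases hr : Rel (delV K x) c b' b v w
    · refine card_bij (fun a _ => Equiv.swap b' b a) ?_ ?_ ?_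
      · intro a ha
        rw [mem_filter] at ha ⊢
        refine ⟨?_, (hs.inn w hr a).1 ha.2⟩
        rw [Equiv.swap_apply_def]
        split_ifs
        · exact hb
        · exact hb'
        · exact ha.1
      · intro a _ a' _ h
        exact (Equiv.swap b' b).injective h
      · intro a ha
        rw [mem_filter] at ha
        refine ⟨Equiv.swap b' b a, ?_, Equiv.swap_apply_self _ _ _⟩
        rw [mem_filter]
        refine ⟨?_, ?_⟩
        · rw [Equiv.swap_apply_def]
          split_ifs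
          · exact hb
          · exact hb'
          · exact ha.1
        · rw [hs.inn w hr, Equiv.swap_apply_self]
          exact ha.2
    · rw [hs.out w hr]
  refine ⟨c', hs, ⟨hst, E.mn, ?_⟩, fun u w hJ => hJ.congr fun a ha z => (h1 a ha z).2⟩
  intro c'' S'' h2 h3
  rw [hOm]
  exact E.mx c'' S'' h2 h3

/-- vertices of doubles that are not parallel are bad -/
theorem bad_of (H : Cx K k Φ x) (hc : VC (delV K x) k Φ c) {b : ℕ} (hb : b ∈ FR k Φ)
    (h2 : (W K k Φ x c S b).card = 2) (hp : ¬ par K k Φ x c S b) {u : V}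
    (hu : u ∈ W K k Φ x c S b) : 2 ≤ bn Φ u := by
  by_contra hcon
  obtain ⟨v, w, hvw, hW⟩ := card_eq_two.1 h2
  have hJ : Jn K k Φ x c v w := by
    by_contra h
    exact hp ⟨v, w, hvw, hW, h⟩
  obtain ⟨F, hF, hFc, hvF, hwF, hl⟩ := hJ
  have hv : b ∈ avl (delV K x) k Φ c v := (mem_W.1 (by rw [hW]; simp : v ∈ W K k Φ x c S b)).2
  have hw : b ∈ avl (delV K x) k Φ c w := (mem_W.1 (by rw [hW]; simp : w ∈ W K k Φ x c S b)).2
  rw [hW, mem_insert, mem_singleton] at hu
  rcases hu with rfl | rfl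
  · exact H.mp2 c hc F hF hFc hl u hvF w hwF hvw (by omega) b hb hv hw
  · exact H.mp2 c hc F hF hFc hl u hwF v hvF hvw.symm (by omega) b hb hw hv

/-- the case with a parallel pair -/
theorem case_par (H : Cx K k Φ x) (E : Ext K k Φ x c S)
    (hmin : ∀ c', Ext K k Φ x c' S → Dp K k Φ x c S ≤ Dp K k Φ x c' S) {b : ℕ}
    (hb : b ∈ FR k Φ) (hp : par K k Φ x c S b) : False := by
  classical
  obtain ⟨v, w, hvw, hW, hJ⟩ := id hp
  have hv : v ∈ S ∧ b ∈ avl (delV K x) k Φ c v := mem_W.1 (by rw [hW]; simp)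
  have hw : w ∈ S ∧ b ∈ avl (delV K x) k Φ c w := mem_W.1 (by rw [hW]; simp)
  obtain ⟨X, hX, hvX, hwX, hXc, hXJ⟩ := getX H E hv.1 hw.1 hJ
  refine lemH H E hb hvw hW hX hvX hwX hXc hXJ ?_
  intro b' hb' hbb hsub
  obtain ⟨c', hs, E', hJ'⟩ := free_swap H E hb hb' hbb v
  have hW' : ∀ z ∈ S, b ∈ avl (delV K x) k Φ c z → z = v ∨ z = w := by
    intro z hz hz'
    have : z ∈ W K k Φ x c S b := mem_W.2 ⟨hz, hz'⟩
    rw [hW, mem_insert, mem_singleton] at this
    exact this
  by_cases hr : Rel (delV K x) c b' b v w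
  · have h1 := pos H E' hb
    rw [card_pos] at h1
    obtain ⟨z, hz⟩ := h1
    rw [mem_W] at hz
    by_cases hzr : Rel (delV K x) c b' b v z
    · have h2 := (hs.in_b hzr).1 hz.2
      have h3 : z ∈ X := hsub (mem_W.2 ⟨hz.1, h2⟩)
      rcases three E.st.vc.pc hr hzr (Or.inr (avl_miss hv.2)) (Or.inr (avl_miss hw.2))
        (Or.inl (avl_miss h2)) with h | h | h
      · exact hvw h
      · exact hvX (h ▸ h3)
      · exact hwX (h ▸ h3)
    · rw [hs.out z hzr] at hz
      rcases hW' z hz.1 hz.2 with rfl | rfl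
      · exact hzr Rel.rfl'
      · exact hzr hr
  · -- the number of the parallel pairs drops
    have hn1 : ¬ par K k Φ x c' S b := by
      rintro ⟨p, q, hpq, hWp, hJp⟩
      have key : ∀ z, z ∈ W K k Φ x c' S b → z = w ∨ z ∈ X := by
        intro z hz
        rw [mem_W] at hz
        by_cases hzr : Rel (delV K x) c b' b v z
        · exact Or.inr (hsub (mem_W.2 ⟨hz.1, (hs.in_b hzr).1 hz.2⟩))
        · rw [hs.out z hzr] at hz
          rcases hW' z hz.1 hz.2 with rfl | rfl
          · exact absurd Rel.rfl' hzr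
          · exact Or.inl rfl
      have hwm : w ∈ W K k Φ x c' S b := by
        rw [mem_W, hs.out w hr]
        exact hw
      rw [hWp, mem_insert, mem_singleton] at hwm
      rcases hwm with rfl | rfl
      · rcases key q (by rw [hWp]; simp) with h | h
        · exact hpq h.symm
        · exact hJp (hJ' _ _ (hXJ q h w hw.1 hwX).symm)
      · rcases key p (by rw [hWp]; simp) with h | h
        · exact hpq h
        · exact hJp (hJ' _ _ (hXJ p h w hw.1 hwX))
    have hn2 : ¬ par K k Φ x c' S b' := by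
      rintro ⟨p, q, hpq, hWp, hJp⟩
      have key : ∀ z, z ∈ W K k Φ x c' S b' → z = v ∨ z ∈ X := by
        intro z hz
        rw [mem_W] at hz
        by_cases hzr : Rel (delV K x) c b' b v z
        · rcases hW' z hz.1 ((hs.in_g hzr).1 hz.2) with rfl | rfl
          · exact Or.inl rfl
          · exact absurd hzr hr
        · rw [hs.out z hzr] at hz
          exact Or.inr (hsub (mem_W.2 hz))
      have hvm : v ∈ W K k Φ x c' S b' := mem_W.2 ⟨hv.1, (hs.in_g Rel.rfl').2 hv.2⟩
      rw [hWp, mem_insert, mem_singleton] at hvm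
      rcases hvm with rfl | rfl
      · rcases key q (by rw [hWp]; simp) with h | h
        · exact hpq h.symm
        · exact hJp (hJ' _ _ (hXJ q h v hv.1 hvX).symm)
      · rcases key p (by rw [hWp]; simp) with h | h
        · exact hpq h
        · exact hJp (hJ' _ _ (hXJ p h v hv.1 hvX))
    have h1 := hmin c' E'
    have h2 : Dp K k Φ x c' S < Dp K k Φ x c S := by
      unfold Dp
      refine card_lt_card ?_
      rw [ssubset_iff_of_subset]
      · refine ⟨b, mem_filter.2 ⟨hb, hp⟩, fun h => hn1 (mem_filter.1 h).2⟩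
      · intro a ha
        rw [mem_filter] at ha ⊢
        refine ⟨ha.1, ?_⟩
        have hab : a ≠ b := by
          rintro rfl
          exact hn1 ha.2
        have hab' : a ≠ b' := by
          rintro rfl
          exact hn2 ha.2
        obtain ⟨p, q, hpq, hWp, hJp⟩ := ha.2
        refine ⟨p, q, hpq, ?_, fun h => hJp (hJ' _ _ h)⟩
        rw [← hWp]
        ext z
        rw [mem_W, mem_W, hs.other hab' hab z]
    omega

/-- the case without parallel pairs, with a colour that is missing only once -/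
theorem case_one (H : Cx K k Φ x) (E : Ext K k Φ x c S)
    (hnp : ∀ b ∈ FR k Φ, ¬ par K k Φ x c S b) {b : ℕ} (hb : b ∈ FR k Φ)
    (h1 : (W K k Φ x c S b).card = 1) : False := by
  classical
  -- doubles
  set DD := (FR k Φ).filter fun b' => (W K k Φ x c S b').card = 2 with hDD
  set J := DD.biUnion (W K k Φ x c S) with hJ
  have hJS : J ⊆ S := by
    intro z hz
    rw [hJ, mem_biUnion] at hz
    obtain ⟨b', _, hz⟩ := hz
    exact (mem_W.1 hz).1
  have hJb : ∀ z ∈ J, 2 ≤ bn Φ z := by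
    intro z hz
    rw [hJ, mem_biUnion] at hz
    obtain ⟨b', hb', hz⟩ := hz
    rw [hDD, mem_filter] at hb'
    exact bad_of H E.st.vc hb'.1 hb'.2 (hnp b' hb'.1) hz
  have hJc := H.bad J hJb
  set A2 := (NN K k Φ x c S).filter fun g => 3 ≤ (W K k Φ x c S g).card with hA2
  have hg3 : ∀ g ∈ NN K k Φ x c S, 3 ≤ (W K k Φ x c S g).card →
      (W K k Φ x c S g).card ≤ 3 ∧ cl Φ g = 2 ∧ ∀ v ∈ J, g ∉ Φ v := by
    intro g hg hg3
    have h2 := count_c E hb (Or.inl ⟨(mem_NN.1 hg).2, hg3⟩) ∅ (by simp)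
    rw [sdiff_empty, sdiff_empty, h1] at h2
    have h3 := H.cg g
    have h4 : ((univ.filter fun v => g ∈ Φ v).erase x).card ≤ cl Φ g :=
      card_le_card (erase_subset _ _)
    have h5 := H.c2 g
    refine ⟨by omega, by omega, ?_⟩
    intro v hv hgv
    rw [hJ, mem_biUnion] at hv
    obtain ⟨b', hb', hv⟩ := hv
    rw [hDD, mem_filter] at hb'
    have h6 := count_c E hb'.1 (Or.inl ⟨(mem_NN.1 hg).2, hg3⟩) {v} (by
      intro z hz
      rw [mem_singleton] at hz
      rw [hz]
      exact ⟨hgv, hv⟩)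
    have hvx : v ≠ x := by
      rintro rfl
      exact (mem_nb.1 (E.st.sub (mem_W.1 hv).1)).ne rfl
    rw [card_sdiff_of_subset (singleton_subset_iff.2 (mem_erase.2 ⟨hvx, mem_filter.2
      ⟨mem_univ _, hgv⟩⟩)), card_sdiff_of_subset (singleton_subset_iff.2 hv), hb'.2,
      card_singleton] at h6
    omega
  have hA2c : J.card + A2.card ≤ m2 k Φ := by
    have h2 : Disjoint ((range k).filter fun a => cl Φ a = 2 ∧ ∃ v ∈ J, a ∈ Φ v) A2 := by
      rw [disjoint_left]
      intro a ha ha'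
      rw [mem_filter] at ha
      rw [hA2, mem_filter] at ha'
      obtain ⟨v, hv, hav⟩ := ha.2.2
      exact (hg3 a ha'.1 ha'.2).2.2 v hv hav
    have h3 : ((range k).filter fun a => cl Φ a = 2 ∧ ∃ v ∈ J, a ∈ Φ v) ∪ A2 ⊆
        (range k).filter fun a => cl Φ a = 2 := by
      intro a ha
      rw [mem_union, mem_filter, hA2, mem_filter] at ha
      rw [mem_filter]
      rcases ha with h | h
      · exact ⟨h.1, h.2.1⟩
      · exact ⟨mem_range.2 (mem_NF.1 (mem_NN.1 h.1).2).1, (hg3 a h.1 h.2).2.1⟩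
    have h4 := card_le_card h3
    rw [card_union_of_disjoint h2] at h4
    unfold m2
    omega
  -- the total number
  set τ := ∑ w ∈ S, (avl (delV K x) k Φ c w).card with hτ
  have ht := total (K := K) (c := c) (H.sub x) S
  rw [← hτ] at ht
  have t1 : ∑ g ∈ FR k Φ, (W K k Φ x c S g).card ≤ (FR k Φ).card + DD.card := by
    have h2 : ∀ g ∈ FR k Φ, (W K k Φ x c S g).card ≤
        1 + if (W K k Φ x c S g).card = 2 then 1 else 0 := by
      intro g hg
      have h3 := le_two H E hg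
      split_ifs with h4
      · omega
      · omega
    have h3 := sum_le_sum h2
    rw [sum_add_distrib, ← card_filter, ← hDD] at h3
    simpa using h3
  have t2 : ∑ g ∈ NN K k Φ x c S, (W K k Φ x c S g).card ≤
      (NN K k Φ x c S).card * 2 + A2.card := by
    have h2 : ∀ g ∈ NN K k Φ x c S, (W K k Φ x c S g).card ≤
        2 + if 3 ≤ (W K k Φ x c S g).card then 1 else 0 := by
      intro g hg
      split_ifs with h4
      · have := (hg3 g hg h4).1
        omega
      · omega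
    have h3 := sum_le_sum h2
    rw [sum_add_distrib, ← card_filter, ← hA2] at h3
    simpa using h3
  have t3 : ∑ g ∈ Φ x, (W K k Φ x c S g).card ≤ (Φ x).card * 2 := by
    rw [← smul_eq_mul]
    refine sum_le_card_nsmul _ _ _ fun g hg => ?_
    have h2 := count_c E hb (Or.inr hg) ∅ (by simp)
    rw [sdiff_empty, sdiff_empty, h1] at h2
    have := H.cgx hg
    omega
  have t4 : DD.card * 2 ≤ ∑ w ∈ J, (avl (delV K x) k Φ c w).card := by
    have h2 : ∑ b' ∈ DD, (W K k Φ x c S b').card = DD.card * 2 := by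
      rw [sum_congr rfl (fun b' hb' => (mem_filter.1 hb').2), sum_const, smul_eq_mul]
    rw [← h2]
    have h3 : ∀ b' ∈ DD, (W K k Φ x c S b').card =
        ∑ w ∈ J, if w ∈ W K k Φ x c S b' then 1 else 0 := by
      intro b' hb'
      rw [← card_filter]
      congr 1
      ext z
      rw [mem_filter]
      exact ⟨fun h => ⟨mem_biUnion.2 ⟨b', hb', h⟩, h⟩, fun h => h.2⟩
    rw [sum_congr rfl h3, sum_comm]
    refine sum_le_sum fun w _ => ?_
    rw [← card_filter]
    apply card_le_card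
    intro b' hb'
    rw [mem_filter] at hb'
    exact (mem_W.1 hb'.2).2
  have t5 : (S.card - J.card) * 2 ≤ ∑ w ∈ S \ J, (avl (delV K x) k Φ c w).card := by
    rw [← card_sdiff_of_subset hJS, ← smul_eq_mul]
    exact card_nsmul_le_sum _ _ _ fun w hw => H.two E.st.vc (E.st.sub (mem_sdiff.1 hw).1)
  have t11 : J.card * 2 ≤ ∑ w ∈ J, (avl (delV K x) k Φ c w).card := by
    rw [← smul_eq_mul]
    exact card_nsmul_le_sum _ _ _ fun w hw => H.two E.st.vc (E.st.sub (hJS hw))
  have t6 : ∑ w ∈ S \ J, (avl (delV K x) k Φ c w).card +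
      ∑ w ∈ J, (avl (delV K x) k Φ c w).card = τ := sum_sdiff hJS
  have t7 := card_le_card hJS
  have t8 := E.st.eq
  have t9 := H.rm2
  have t10 := H.px
  omega

/-- the case where all free colours are missing twice -/
theorem case_two (H : Cx K k Φ x) (E : Ext K k Φ x c S)
    (hnp : ∀ b ∈ FR k Φ, ¬ par K k Φ x c S b)
    (h2 : ∀ b ∈ FR k Φ, (W K k Φ x c S b).card = 2) : False := by
  classical
  obtain ⟨b, hb⟩ : (FR k Φ).Nonempty := by
    rw [← card_pos]
    have := H.rm2
    omega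
  have hgood : ∀ u ∈ S, bn Φ u ≤ 1 → ∀ b' ∈ FR k Φ, b' ∉ avl (delV K x) k Φ c u := by
    intro u hu hg b' hb' hcon
    have := bad_of H E.st.vc hb' (h2 b' hb') (hnp b' hb') (mem_W.2 ⟨hu, hcon⟩)
    omega
  set A := S.filter fun u => bn Φ u ≤ 1 with hA
  have hAS : A ⊆ S := filter_subset _ _
  obtain ⟨g, hg, hg3⟩ : ∃ g ∈ NN K k Φ x c S, 3 ≤ (W K k Φ x c A g).card := by
    by_contra hcon
    push Not at hcon
    have h3 := count_le H E.st.vc A (hAS.trans E.st.sub) 0 ((NN K k Φ x c S).card * 2) 3 ?_ ?_ ?_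
    · have h4 : (S.filter fun u => ¬ bn Φ u ≤ 1).card ≤ m2 k Φ := H.bad' _ (by
        intro u hu
        have := (mem_filter.1 hu).2
        omega)
      have h5 := card_filter_add_card_filter_not (s := S) (fun u => bn Φ u ≤ 1)
      have h6 := H.rm2
      have h7 := E.st.eq
      rw [← hA] at h5
      omega
    · refine (sum_eq_zero ?_).le
      intro g hg
      rw [card_eq_zero, eq_empty_iff_forall_notMem]
      intro u hu
      rw [mem_W, hA, mem_filter] at hu
      exact hgood u hu.1.1 hu.1.2 g hg hu.2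
    · have h4 : ∑ g ∈ NN K k Φ x c A, (W K k Φ x c A g).card ≤
          (NN K k Φ x c A).card * 2 := by
        rw [← smul_eq_mul]
        refine sum_le_card_nsmul _ _ _ fun g hg => ?_
        have := hcon g (NN_mono hAS hg)
        omega
      have h5 := card_le_card (NN_mono (K := K) (k := k) (Φ := Φ) (x := x) (c := c) hAS)
      omega
    · intro g hg
      have h4 := count_c E hb (Or.inr hg) ∅ (by simp)
      rw [sdiff_empty, sdiff_empty, h2 b hb] at h4
      have h5 := H.cgx hg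
      have h6 : (W K k Φ x c A g).card ≤ (W K k Φ x c S g).card := by
        apply card_le_card
        intro z hz
        rw [mem_W] at hz ⊢
        exact ⟨hAS hz.1, hz.2⟩
      omega
  have hgN := (mem_NN.1 hg).2
  have hn3 : 3 ≤ (W K k Φ x c S g).card := by
    have h6 : (W K k Φ x c A g).card ≤ (W K k Φ x c S g).card := by
      apply card_le_card
      intro z hz
      rw [mem_W] at hz ⊢
      exact ⟨hAS hz.1, hz.2⟩
    omega
  -- a good vertex whose component ends in the pair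
  obtain ⟨u, hu, t, ht, hut⟩ : ∃ u ∈ W K k Φ x c A g, ∃ t ∈ W K k Φ x c S b,
      Rel (delV K x) c g b u t := by
    by_contra hcon
    push Not at hcon
    have h3 : (W K k Φ x c A g).card ≤ ((univ.filter fun v => g ∈ Φ v).erase x).card := by
      refine inj_count (g := g) (b := b) E.st.vc.pc _ _ ?_
      intro u hu
      have hu' := hu
      rw [mem_W, hA, mem_filter] at hu
      obtain ⟨⟨huS, hg'⟩, hgu⟩ := hu
      refine ⟨Or.inl (avl_miss hgu), ?_⟩
      obtain ⟨t, ht, ht'⟩ := target E hb huS hgu (hgood u huS hg' b hb) (Or.inl ⟨hgN, hn3⟩)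
      rcases ht' with ⟨h3, h4⟩ | h3
      · refine ⟨t, mem_erase.2 ⟨h4, mem_filter.2 ⟨mem_univ _, h3⟩⟩, ht,
          Or.inl (phi_miss E.st.vc h3), ?_⟩
        intro h5
        rw [h5] at h3
        exact absurd h3 (mem_avl.1 hgu).2.1
      · exact absurd ht (hcon u hu' t h3)
    have := H.cg g
    omega
  rw [mem_W, hA, mem_filter] at hu
  obtain ⟨⟨huS, hug⟩, hgu⟩ := hu
  obtain ⟨t', ht', htt, hW⟩ : ∃ t' ∈ W K k Φ x c S b, t ≠ t' ∧ W K k Φ x c S b = {t, t'} := by
    obtain ⟨p, q, hpq, hWp⟩ := card_eq_two.1 (h2 b hb)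
    rw [hWp, mem_insert, mem_singleton] at ht
    rcases ht with rfl | rfl
    · exact ⟨q, by rw [hWp]; simp, hpq, hWp⟩
    · exact ⟨p, by rw [hWp]; simp, hpq.symm, by rw [hWp, pair_comm]⟩
  have htS := mem_W.1 ht
  have ht'S := mem_W.1 ht'
  have hmu : Miss (delV K x) c u g := avl_miss hgu
  have hmt : Miss (delV K x) c t b := avl_miss htS.2
  have hmt' : Miss (delV K x) c t' b := avl_miss ht'S.2
  have hub : b ∉ avl (delV K x) k Φ c u := hgood u huS hug b hb
  have hut1 : u ≠ t := fun h => hub (h ▸ htS.2)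
  have hut2 : u ≠ t' := fun h => hub (h ▸ ht'S.2)
  have hends : ∀ z, Rel (delV K x) c g b u z → Miss (delV K x) c z g → z = u := by
    intro z hz hm
    rcases three E.st.vc.pc hut hz (Or.inl hmu) (Or.inr hmt) (Or.inl hm) with h | h | h
    · exact absurd h hut1
    · exact h.symm
    · rw [← h] at hm
      exact absurd (iso E.st.vc.pc hm hmt hut.symm) hut1
  have ht'n : ¬ Rel (delV K x) c g b u t' := by
    intro h
    rcases three E.st.vc.pc hut h (Or.inl hmu) (Or.inr hmt) (Or.inr hmt') with h | h | h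
    · exact hut1 h
    · exact hut2 h
    · exact htt h
  have hQ : ∀ z, Rel (delV K x) c g b u z → g ∉ Φ z := by
    intro z hz hgz
    have := hends z hz (phi_miss E.st.vc hgz)
    rw [this] at hgz
    exact (mem_avl.1 hgu).2.1 hgz
  obtain ⟨c', hs⟩ := doSwap E.st.vc (mem_avl.1 hgu).1 hb u hQ
  have hW' : W K k Φ x c' S b = {u, t'} := by
    ext z
    rw [mem_W, mem_insert, mem_singleton]
    constructor
    · rintro ⟨hz, hz'⟩
      by_cases hr : Rel (delV K x) c g b u z
      · exact Or.inl (hends z hr (avl_miss ((hs.in_b hr).1 hz')))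
      · rw [hs.out z hr] at hz'
        have h3 : z ∈ W K k Φ x c S b := mem_W.2 ⟨hz, hz'⟩
        rw [hW, mem_insert, mem_singleton] at h3
        rcases h3 with h3 | h3
        · rw [h3] at hr
          exact absurd hut hr
        · exact Or.inr h3
    · rintro (rfl | rfl)
      · exact ⟨huS, (hs.in_b Rel.rfl').2 hgu⟩
      · rw [hs.out z ht'n]
        exact ht'S
  have hWo : ∀ a ∈ FR k Φ, a ≠ b → W K k Φ x c' S a = W K k Φ x c S a := by
    intro a ha hab
    ext z
    rw [mem_W, mem_W, hs.other (fun h => fr_nf ha hgN h.symm) hab z]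
  have hst : Stt K k Φ x c' S := by
    refine stt_swap E hs.vc g (fun a ha hag z => hs.other hag (fr_nf hb ha) z) fun _ => ⟨hg, ?_⟩
    exact mem_NN.2 ⟨⟨t, htS.1, (hs.in_g hut).2 htS.2⟩, hgN⟩
  have hOm : Om K k Φ x c' S = Om K k Φ x c S := by
    unfold Om
    refine sum_congr rfl fun a ha => ?_
    by_cases hab : a = b
    · rw [hab, hW', hW, card_pair hut2, card_pair htt]
    · rw [hWo a ha hab]
  have E' : Ext K k Φ x c' S := ⟨hst, E.mn, by
    intro c'' S'' h3 h4
    rw [hOm]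
    exact E.mx c'' S'' h3 h4⟩
  have hbu : b ∈ avl (delV K x) k Φ c' u := (mem_W.1 (by rw [hW']; simp : u ∈ W K k Φ x c' S b)).2
  have hbt' : b ∈ avl (delV K x) k Φ c' t' :=
    (mem_W.1 (by rw [hW']; simp : t' ∈ W K k Φ x c' S b)).2
  have hnJ : ¬ Jn K k Φ x c' u t' := by
    rintro ⟨F, hF, hFc, huF, htF, hl⟩
    exact H.mp2 c' hs.vc F hF hFc hl u huF t' htF hut2 hug b hb hbu hbt'
  obtain ⟨X, hX, huX, htX, hXc, hXJ⟩ := getX H E' huS ht'S.1 hnJ
  refine lemH H E' hb hut2 hW' hX huX htX hXc hXJ ?_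
  intro b' hb' hbb hsub
  obtain ⟨c'', hs', E'', hJ''⟩ := free_swap H E' hb hb' hbb u
  obtain ⟨p, q, hpq, hWp⟩ := card_eq_two.1 (h2 b' hb')
  have hWp' : W K k Φ x c' S b' = {p, q} := by rw [hWo b' hb' hbb, hWp]
  have hp : p ∈ S ∧ b' ∈ avl (delV K x) k Φ c' p := mem_W.1 (by rw [hWp']; simp)
  have hq : q ∈ S ∧ b' ∈ avl (delV K x) k Φ c' q := mem_W.1 (by rw [hWp']; simp)
  have hpX : p ∈ X := hsub (mem_W.2 hp)
  have hqX : q ∈ X := hsub (mem_W.2 hq)
  obtain ⟨s, hsW, hsX, hsr⟩ : ∃ s, b' ∈ avl (delV K x) k Φ c' s ∧ s ∈ X ∧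
      ¬ Rel (delV K x) c' b' b u s := by
    by_contra hcon
    push Not at hcon
    rcases three E'.st.vc.pc (hcon p hp.2 hpX) (hcon q hq.2 hqX) (Or.inr (avl_miss hbu))
      (Or.inl (avl_miss hp.2)) (Or.inl (avl_miss hq.2)) with h | h | h
    · exact huX (h ▸ hpX)
    · exact huX (h ▸ hqX)
    · exact hpq h
  obtain ⟨F, hF, hFc, hsF, huF, hl⟩ := hJ'' _ _ (hXJ s hsX u huS huX)
  refine H.mp2 c'' hs'.vc F hF hFc hl u huF s hsF (fun h => huX (h ▸ hsX)) hug b' hb'
    ((hs'.in_g Rel.rfl').2 hbu) (by rw [hs'.out s hsr]; exact hsW)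

end A2

/-- **A2** -/
theorem t_A2 : S_A2 := by
  classical
  intro V _ _ K k Φ hsub hdeg hc2 hsm x hpx hmp1 hmp2
  rintro ⟨c0, hc0, F0, hF0, hF0c, hl0⟩
  have H : Cx K k Φ x := ⟨hsub, hdeg, hc2, hsm, hpx, hmp1, hmp2⟩
  -- a state exists
  have h1 : ∃ S, Stt K k Φ x c0 S := by
    have hcs : ∀ X ⊆ nb K x, X.card ≤ (NN K k Φ x c0 X).card + (FR k Φ).card + 1 := by
      intro X hX
      have h2 := lb_hall hF0 hl0 X hX
      have h3 : (X ∩ F0).card ≤ F0.card := card_le_card inter_subset_right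
      omega
    by_contra hcon
    push Not at hcon
    obtain ⟨F, hF, hd, hl⟩ := hall_lb (K := K) (k := k) (Φ := Φ) (x := x) (c := c0)
      (T := nb K x) (d := (FR k Φ).card) (by
        intro X hX
        by_contra h2
        have h3 := hcs X hX
        exact hcon X ⟨hc0, hX, hcs, by omega⟩)
    have := hmp1 c0 hc0 F hF hl
    omega
  -- minimal size
  have h2 : ∃ n, ∃ c S, Stt K k Φ x c S ∧ S.card = n := by
    obtain ⟨S, hS⟩ := h1
    exact ⟨_, c0, S, hS, rfl⟩
  obtain ⟨c1, S1, hS1, hc1⟩ := Nat.find_spec h2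
  have hmn : ∀ c' S', Stt K k Φ x c' S' → Nat.find h2 ≤ S'.card :=
    fun c' S' h => Nat.find_min' h2 ⟨c', S', h, rfl⟩
  -- maximal number of free colours
  have h3 : ∃ n, ∃ c S, Stt K k Φ x c S ∧ S.card = Nat.find h2 ∧
      k * (univ : Finset V).card - Om K k Φ x c S = n := ⟨_, c1, S1, hS1, hc1, rfl⟩
  obtain ⟨c2, S2, hS2, hc2', hOm2⟩ := Nat.find_spec h3
  have hOmb : ∀ c' S', Om K k Φ x c' S' ≤ k * (univ : Finset V).card := by
    intro c' S'
    unfold Om
    have h4 : ∑ b ∈ FR k Φ, (W K k Φ x c' S' b).card ≤ (FR k Φ).card * (univ : Finset V).card := by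
      rw [← smul_eq_mul]
      exact sum_le_card_nsmul _ _ _ fun b _ => card_le_card (subset_univ _)
    have h5 : (FR k Φ).card ≤ k := by
      have := k_eq (hsub x)
      omega
    exact h4.trans (Nat.mul_le_mul_right _ h5)
  have E2 : Ext K k Φ x c2 S2 := by
    refine ⟨hS2, fun c' S' h => by rw [hc2']; exact hmn c' S' h, ?_⟩
    intro c' S' h h'
    have h4 := Nat.find_min' h3 ⟨c', S', h, by rw [h', hc2'], rfl⟩
    have h5 := hOmb c' S'
    have h6 := hOmb c2 S2
    omega
  -- minimal number of parallel pairs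
  have h4 : ∃ n, ∃ c, Ext K k Φ x c S2 ∧ Dp K k Φ x c S2 = n := ⟨_, c2, E2, rfl⟩
  obtain ⟨c3, E3, hD3⟩ := Nat.find_spec h4
  have hmin : ∀ c', Ext K k Φ x c' S2 → Dp K k Φ x c3 S2 ≤ Dp K k Φ x c' S2 := by
    intro c' h
    rw [hD3]
    exact Nat.find_min' h4 ⟨c', h, rfl⟩
  by_cases hp : ∃ b ∈ FR k Φ, par K k Φ x c3 S2 b
  · obtain ⟨b, hb, hp⟩ := hp
    exact case_par H E3 hmin hb hp
  · push Not at hp
    by_cases ho : ∃ b ∈ FR k Φ, (W K k Φ x c3 S2 b).card = 1
    · obtain ⟨b, hb, ho⟩ := ho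
      exact case_one H E3 hp hb ho
    · push Not at ho
      refine case_two H E3 hp fun b hb => ?_
      have h5 := le_two H E3 hb
      have h6 := pos H E3 hb
      have h7 := ho b hb
      omega

end Run7.h24.U
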