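import Pool.Agent.Run7.h24.U.Kmp

/-! LemP2, second part: definitions and counting. -/

set_option autoImplicit false
set_option linter.unusedVariables false
set_option linter.unusedSectionVars false

namespace Run7.h24.U

open Finset Pool.Q11.TwoEnd Pool.Q6.CI Run7.h932

section A2

variable {V : Type} [Fintype V] [DecidableEq V]

/-- the vertices of `S` with the available colour `a` -/
noncomputable def W (K : SimpleGraph V) (k : ℕ) (Φ : V → Finset ℕ) (x : V) (c : V → V → ℕ)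
    (S : Finset V) (a : ℕ) : Finset V :=
  S.filter fun w => a ∈ avl (delV K x) k Φ c w

/-- the colours of `NF` available in `X` -/
noncomputable def NN (K : SimpleGraph V) (k : ℕ) (Φ : V → Finset ℕ) (x : V) (c : V → V → ℕ)
    (X : Finset V) : Finset ℕ :=
  (X.biUnion (avl (delV K x) k Φ c)) ∩ NF k Φ x

/-- states -/
structure Stt (K : SimpleGraph V) (k : ℕ) (Φ : V → Finset ℕ) (x : V) (c : V → V → ℕ)
    (S : Finset V) : Prop where
  vc : VC (delV K x) k Φ c
  sub : S ⊆ nb K x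
  cs : ∀ X ⊆ nb K x, X.card ≤ (NN K k Φ x c X).card + (FR k Φ).card + 1
  eq : S.card = (NN K k Φ x c S).card + (FR k Φ).card + 1

/-- some labelling leaves both unlabelled -/
def Jn (K : SimpleGraph V) (k : ℕ) (Φ : V → Finset ℕ) (x : V) (c : V → V → ℕ) (v w : V) : Prop :=
  ∃ F ⊆ nb K x, F.card = (FR k Φ).card + 1 ∧ v ∈ F ∧ w ∈ F ∧
    Lb (avl (delV K x) k Φ c) (NF k Φ x) (nb K x \ F)

/-- the total number of available free colours -/
noncomputable def Om (K : SimpleGraph V) (k : ℕ) (Φ : V → Finset ℕ) (x : V) (c : V → V → ℕ)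
    (S : Finset V) : ℕ := ∑ b ∈ FR k Φ, (W K k Φ x c S b).card

/-- extremal states -/
structure Ext (K : SimpleGraph V) (k : ℕ) (Φ : V → Finset ℕ) (x : V) (c : V → V → ℕ)
    (S : Finset V) : Prop where
  st : Stt K k Φ x c S
  mn : ∀ c' S', Stt K k Φ x c' S' → S.card ≤ S'.card
  mx : ∀ c' S', Stt K k Φ x c' S' → S'.card = S.card → Om K k Φ x c' S' ≤ Om K k Φ x c S

/-- the hypotheses -/
structure Cx (K : SimpleGraph V) (k : ℕ) (Φ : V → Finset ℕ) (x : V) : Prop where
  sub : ∀ v, Φ v ⊆ range k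
  deg : ∀ v, dg K v + (Φ v).card + 1 ≤ k
  c2 : ∀ a, cl Φ a ≤ 2
  sm : (∑ v, (Φ v).card) + 3 ≤ k
  px : (Φ x).card ≤ 1
  mp1 : ∀ c, VC (delV K x) k Φ c → ∀ F ⊆ nb K x,
      Lb (avl (delV K x) k Φ c) (NF k Φ x) (nb K x \ F) → (FR k Φ).card + 1 ≤ F.card
  mp2 : ∀ c, VC (delV K x) k Φ c → ∀ F ⊆ nb K x, F.card = (FR k Φ).card + 1 →
      Lb (avl (delV K x) k Φ c) (NF k Φ x) (nb K x \ F) → ∀ w ∈ F, ∀ z ∈ F, w ≠ z → bn Φ w ≤ 1 →
      ∀ b ∈ FR k Φ, b ∈ avl (delV K x) k Φ c w → b ∈ avl (delV K x) k Φ c z → False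

theorem mem_FR {k : ℕ} {Φ : V → Finset ℕ} {b : ℕ} : b ∈ FR k Φ ↔ b < k ∧ ∀ v, b ∉ Φ v := by
  classical
  unfold FR
  simp only [mem_filter, mem_range]

theorem mem_NF {k : ℕ} {Φ : V → Finset ℕ} {x : V} {g : ℕ} :
    g ∈ NF k Φ x ↔ g < k ∧ (∃ v, g ∈ Φ v) ∧ g ∉ Φ x := by
  classical
  unfold NF
  simp only [mem_filter, mem_range]

theorem mem_nb {K : SimpleGraph V} {x w : V} : w ∈ nb K x ↔ K.Adj x w := by
  classical
  unfold nb
  simp

variable {K : SimpleGraph V} {k : ℕ} {Φ : V → Finset ℕ} {x : V} {c : V → V → ℕ}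

theorem mem_W {S : Finset V} {a : ℕ} {w : V} :
    w ∈ W K k Φ x c S a ↔ w ∈ S ∧ a ∈ avl (delV K x) k Φ c w := by
  unfold W
  rw [mem_filter]

theorem mem_NN {X : Finset V} {a : ℕ} :
    a ∈ NN K k Φ x c X ↔ (∃ w ∈ X, a ∈ avl (delV K x) k Φ c w) ∧ a ∈ NF k Φ x := by
  unfold NN
  rw [mem_inter, mem_biUnion]

/-- splitting the colours -/
theorem sum_split (hs : Φ x ⊆ range k) (f : ℕ → ℕ) :
    ∑ a ∈ range k, f a = ∑ a ∈ FR k Φ, f a + ∑ a ∈ NF k Φ x, f a + ∑ a ∈ Φ x, f a := by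
  have h1 : Disjoint (FR k Φ) (NF k Φ x) := by
    rw [disjoint_left]
    intro a ha hb
    obtain ⟨_, ⟨v, hv⟩, _⟩ := mem_NF.1 hb
    exact (mem_FR.1 ha).2 v hv
  have h2 : Disjoint (FR k Φ ∪ NF k Φ x) (Φ x) := by
    rw [disjoint_left]
    intro a ha hb
    rcases mem_union.1 ha with h | h
    · exact (mem_FR.1 h).2 x hb
    · exact (mem_NF.1 h).2.2 hb
  rw [← sum_union h1, ← sum_union h2]
  congr 1
  ext a
  rw [mem_union, mem_union, mem_FR, mem_NF, mem_range]
  constructor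
  · intro ha
    by_cases h3 : a ∈ Φ x
    · exact Or.inr h3
    · left
      by_cases h4 : ∃ v, a ∈ Φ v
      · exact Or.inr ⟨ha, h4, h3⟩
      · left
        push Not at h4
        exact ⟨ha, h4⟩
  · rintro ((h | h) | h)
    · exact h.1
    · exact h.1
    · exact mem_range.1 (hs h)

theorem k_eq (hs : Φ x ⊆ range k) : k = (FR k Φ).card + (NF k Φ x).card + (Φ x).card := by
  have := sum_split hs (fun _ => 1)
  simpa using this

/-- double counting of the forbidden colours over a set of vertices -/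
theorem sum_phi (hs : ∀ v, Φ v ⊆ range k) (J : Finset V) (P : ℕ → Prop) [DecidablePred P] :
    ∑ v ∈ J, ((Φ v).filter P).card =
      ∑ a ∈ (range k).filter P, (J.filter fun v => a ∈ Φ v).card := by
  have h1 : ∀ v ∈ J, ((Φ v).filter P).card =
      ∑ a ∈ (range k).filter P, if a ∈ Φ v then 1 else 0 := by
    intro v _
    rw [← card_filter]
    congr 1
    ext a
    simp only [mem_filter, mem_range]
    constructor
    · rintro ⟨h1, h2⟩
      exact ⟨⟨mem_range.1 (hs v h1), h2⟩, h1⟩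
    · rintro ⟨⟨_, h2⟩, h1⟩
      exact ⟨h1, h2⟩
  rw [sum_congr rfl h1, sum_comm]
  refine sum_congr rfl fun a _ => ?_
  rw [← card_filter]

/-- the number of the classes of size two -/
noncomputable def m2 (k : ℕ) (Φ : V → Finset ℕ) : ℕ := ((range k).filter fun a => cl Φ a = 2).card

theorem Cx.rm2 (H : Cx K k Φ x) : m2 k Φ + 3 ≤ (FR k Φ).card := by
  have h1 := sum_phi H.sub univ (fun _ => True)
  simp only [filter_true] at h1
  have h2 : ∀ a ∈ range k, (if a ∈ FR k Φ then 0 else 1) + (if cl Φ a = 2 then 1 else 0) ≤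
      (univ.filter fun v => a ∈ Φ v).card := by
    intro a ha
    have h3 : (univ.filter fun v => a ∈ Φ v).card = cl Φ a := rfl
    rw [h3]
    by_cases h4 : a ∈ FR k Φ
    · rw [if_pos h4]
      have : cl Φ a = 0 := by
        rw [← h3, card_eq_zero, filter_eq_empty_iff]
        intro v _
        exact (mem_FR.1 h4).2 v
      rw [this]
      simp
    · rw [if_neg h4]
      have : 1 ≤ cl Φ a := by
        by_contra h5
        apply h4
        rw [mem_FR]
        refine ⟨mem_range.1 ha, fun v hv => ?_⟩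
        have : 0 < (univ.filter fun v => a ∈ Φ v).card :=
          card_pos.2 ⟨v, mem_filter.2 ⟨mem_univ _, hv⟩⟩
        omega
      split_ifs with h6
      · omega
      · omega
  have h3 := sum_le_sum h2
  rw [← h1, sum_add_distrib, ← card_filter] at h3
  have h4 : ∑ a ∈ range k, (if a ∈ FR k Φ then 0 else 1) + (FR k Φ).card = k := by
    have h5 : (FR k Φ).card = ∑ a ∈ range k, (if a ∈ FR k Φ then 1 else 0) := by
      rw [← card_filter]
      congr 1
      ext a
      rw [mem_filter, mem_range]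
      exact ⟨fun h => ⟨(mem_FR.1 h).1, h⟩, fun h => h.2⟩
    rw [h5, ← sum_add_distrib]
    have : ∀ a ∈ range k, (if a ∈ FR k Φ then 0 else 1) + (if a ∈ FR k Φ then 1 else 0) = 1 := by
      intro a _
      split_ifs <;> rfl
    rw [sum_congr rfl this]
    simp
  have h5 := H.sm
  unfold m2
  omega

/-- bad vertices -/
theorem Cx.bad (H : Cx K k Φ x) (J : Finset V) (hJ : ∀ v ∈ J, 2 ≤ bn Φ v) :
    J.card ≤ ((range k).filter fun a => cl Φ a = 2 ∧ ∃ v ∈ J, a ∈ Φ v).card := by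
  have h1 := sum_phi H.sub J (fun a => cl Φ a = 2)
  have h2 : J.card * 2 ≤ ∑ v ∈ J, ((Φ v).filter fun a => cl Φ a = 2).card := by
    rw [← smul_eq_mul]
    exact card_nsmul_le_sum _ _ _ hJ
  have h3 : ∑ a ∈ (range k).filter (fun a => cl Φ a = 2), (J.filter fun v => a ∈ Φ v).card ≤
      ∑ a ∈ (range k).filter (fun a => cl Φ a = 2), if (∃ v ∈ J, a ∈ Φ v) then 2 else 0 := by
    refine sum_le_sum fun a ha => ?_
    split_ifs with h
    · have : (J.filter fun v => a ∈ Φ v).card ≤ cl Φ a :=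
        card_le_card (filter_subset_filter _ (subset_univ _))
      exact this.trans (H.c2 a)
    · rw [Nat.le_zero, card_eq_zero, filter_eq_empty_iff]
      intro v hv hav
      exact h ⟨v, hv, hav⟩
  rw [← sum_filter, sum_const, filter_filter, smul_eq_mul] at h3
  omega

theorem Cx.bad' (H : Cx K k Φ x) (J : Finset V) (hJ : ∀ v ∈ J, 2 ≤ bn Φ v) :
    J.card ≤ m2 k Φ := by
  refine (H.bad J hJ).trans (card_le_card ?_)
  intro a ha
  rw [mem_filter] at ha ⊢
  exact ⟨ha.1, ha.2.1⟩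

/-- every neighbour of `x` has two available colours -/
theorem Cx.two (H : Cx K k Φ x) (hc : VC (delV K x) k Φ c) {w : V} (hw : w ∈ nb K x) :
    2 ≤ (avl (delV K x) k Φ c w).card := by
  classical
  have hadj := mem_nb.1 hw
  have h1 : range k ⊆ avl (delV K x) k Φ c w ∪ (Φ w ∪
      ((univ.filter fun u => K.Adj w u).erase x).image (c w)) := by
    intro a ha
    by_cases h2 : a ∈ Φ w
    · simp [h2]
    by_cases h3 : Miss (delV K x) c w a
    · rw [mem_union]
      exact Or.inl (mem_avl.2 ⟨mem_range.1 ha, h2, h3⟩)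
    · unfold Miss at h3
      push Not at h3
      obtain ⟨u, hu, hcu⟩ := h3
      rw [mem_union, mem_union]
      right; right
      rw [mem_image]
      refine ⟨u, ?_, hcu⟩
      rw [mem_erase, mem_filter]
      exact ⟨hu.2.2, mem_univ _, hu.1⟩
  have h2 := card_le_card h1
  rw [card_range] at h2
  have h3 := card_union_le (avl (delV K x) k Φ c w) (Φ w ∪
      ((univ.filter fun u => K.Adj w u).erase x).image (c w))
  have h4 := card_union_le (Φ w) (((univ.filter fun u => K.Adj w u).erase x).image (c w))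
  have h5 : (((univ.filter fun u => K.Adj w u).erase x).image (c w)).card ≤
    ((univ.filter fun u => K.Adj w u).erase x).card := card_image_le
  have h6 : x ∈ univ.filter fun u => K.Adj w u := mem_filter.2 ⟨mem_univ _, hadj.symm⟩
  have h7 := card_erase_of_mem h6
  have h8 : 0 < (univ.filter fun u => K.Adj w u).card := card_pos.2 ⟨x, h6⟩
  have h9 : dg K w = (univ.filter fun u => K.Adj w u).card := by
    unfold dg
    congr
  have h10 := H.deg w
  omega

theorem Cx.tcard (H : Cx K k Φ x) : (nb K x).card + 1 ≤ (FR k Φ).card + (NF k Φ x).card := by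
  have h1 : (nb K x).card = dg K x := by
    unfold nb dg
    rfl
  have h2 := H.deg x
  have h3 := k_eq (H.sub x)
  omega

/-- `x` is isolated -/
theorem x_iso (hc : VC (delV K x) k Φ c) {g b : ℕ} {z : V} (h : Rel (delV K x) c g b x z) :
    z = x :=
  iso hc.pc (fun w hw _ => hw.2.1 rfl) (fun w hw _ => hw.2.1 rfl) h

/-- the total number of available colours -/
theorem total (hs : Φ x ⊆ range k) (A : Finset V) :
    ∑ w ∈ A, (avl (delV K x) k Φ c w).card = ∑ a ∈ FR k Φ, (W K k Φ x c A a).card +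
      ∑ a ∈ NN K k Φ x c A, (W K k Φ x c A a).card + ∑ a ∈ Φ x, (W K k Φ x c A a).card := by
  have h1 : ∀ w ∈ A, (avl (delV K x) k Φ c w).card =
      ∑ a ∈ range k, if a ∈ avl (delV K x) k Φ c w then 1 else 0 := by
    intro w _
    rw [← card_filter]
    congr 1
    ext a
    rw [mem_filter, mem_range]
    exact ⟨fun h => ⟨(mem_avl.1 h).1, h⟩, fun h => h.2⟩
  rw [sum_congr rfl h1, sum_comm]
  have h2 : ∀ a ∈ range k, (∑ w ∈ A, if a ∈ avl (delV K x) k Φ c w then 1 else 0) =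
      (W K k Φ x c A a).card := by
    intro a _
    rw [← card_filter]
    rfl
  rw [sum_congr rfl h2, sum_split hs]
  congr 2
  symm
  refine sum_subset (fun a ha => (mem_NN.1 ha).2) ?_
  intro a ha hna
  rw [card_eq_zero, eq_empty_iff_forall_notMem]
  intro w hw
  rw [mem_W] at hw
  exact hna (mem_NN.2 ⟨⟨w, hw.1, hw.2⟩, ha⟩)

theorem NN_mono {X Y : Finset V} (h : X ⊆ Y) : NN K k Φ x c X ⊆ NN K k Φ x c Y := by
  intro a ha
  obtain ⟨⟨w, hw, h1⟩, h2⟩ := mem_NN.1 ha
  exact mem_NN.2 ⟨⟨w, h hw, h1⟩, h2⟩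

/-- submodularity -/
theorem NN_sub (X Y : Finset V) : (NN K k Φ x c (X ∪ Y)).card + (NN K k Φ x c (X ∩ Y)).card ≤
    (NN K k Φ x c X).card + (NN K k Φ x c Y).card := by
  have h1 : NN K k Φ x c (X ∪ Y) = NN K k Φ x c X ∪ NN K k Φ x c Y := by
    ext a
    rw [mem_union, mem_NN, mem_NN, mem_NN]
    constructor
    · rintro ⟨⟨w, hw, h1⟩, h2⟩
      rcases mem_union.1 hw with h | h
      · exact Or.inl ⟨⟨w, h, h1⟩, h2⟩
      · exact Or.inr ⟨⟨w, h, h1⟩, h2⟩
    · rintro (⟨⟨w, hw, h1⟩, h2⟩ | ⟨⟨w, hw, h1⟩, h2⟩)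
      · exact ⟨⟨w, mem_union_left _ hw, h1⟩, h2⟩
      · exact ⟨⟨w, mem_union_right _ hw, h1⟩, h2⟩
  have h2 : NN K k Φ x c (X ∩ Y) ⊆ NN K k Φ x c X ∩ NN K k Φ x c Y :=
    subset_inter (NN_mono inter_subset_left) (NN_mono inter_subset_right)
  have h3 := card_le_card h2
  have h4 := card_union_add_card_inter (NN K k Φ x c X) (NN K k Φ x c Y)
  rw [h1]
  omega

/-- labellings from Hall's theorem -/
theorem hall_lb {T : Finset V} {d : ℕ} (h : ∀ X ⊆ T, X.card ≤ (NN K k Φ x c X).card + d) :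
    ∃ F ⊆ T, F.card ≤ d ∧ Lb (avl (delV K x) k Φ c) (NF k Φ x) (T \ F) := by
  obtain ⟨F, hF, hd, f, hf, hm⟩ := hallD (fun w => avl (delV K x) k Φ c w ∩ NF k Φ x) T d (by
    intro X hX
    have h1 : X.biUnion (fun w => avl (delV K x) k Φ c w ∩ NF k Φ x) = NN K k Φ x c X := by
      ext a
      rw [mem_NN, mem_biUnion]
      constructor
      · rintro ⟨w, hw, h1⟩
        rw [mem_inter] at h1
        exact ⟨⟨w, hw, h1.1⟩, h1.2⟩
      · rintro ⟨⟨w, hw, h1⟩, h2⟩
        exact ⟨w, hw, mem_inter.2 ⟨h1, h2⟩⟩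
    rw [h1]
    exact h X hX)
  exact ⟨F, hF, hd, f, hf, fun z hz => mem_inter.1 (hm z hz)⟩

/-- deficiency from a labelling -/
theorem lb_hall {T F : Finset V} (hF : F ⊆ T)
    (h : Lb (avl (delV K x) k Φ c) (NF k Φ x) (T \ F)) (X : Finset V) (hX : X ⊆ T) :
    X.card ≤ (NN K k Φ x c X).card + (X ∩ F).card := by
  obtain ⟨f, hf, hm⟩ := h
  have h1 : (X \ F).card ≤ (NN K k Φ x c X).card := by
    refine card_le_card_of_injOn f ?_ ?_
    · intro z hz
      have hz : z ∈ X \ F := hz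
      rw [mem_sdiff] at hz
      have := hm z (mem_sdiff.2 ⟨hX hz.1, hz.2⟩)
      exact mem_NN.2 ⟨⟨z, hz.1, this.1⟩, this.2⟩
    · refine hf.mono ?_
      intro z hz
      have hz : z ∈ X \ F := hz
      rw [mem_sdiff] at hz
      exact mem_sdiff.2 ⟨hX hz.1, hz.2⟩
  have h2 := card_sdiff_add_card_inter X F
  omega

end A2

end Run7.h24.U
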