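import Pool.Agent.Run7.h24.U.A2a

/-! LemP2, second part: the structure of extremal states. -/

set_option autoImplicit false
set_option linter.unusedVariables false
set_option linter.unusedSectionVars false

namespace Run7.h24.U

open Finset Pool.Q11.TwoEnd Pool.Q6.CI Run7.h932

section A2

variable {V : Type} [Fintype V] [DecidableEq V]
variable {K : SimpleGraph V} {k : ℕ} {Φ : V → Finset ℕ} {x : V} {c : V → V → ℕ} {S : Finset V}

theorem Ext.lt (E : Ext K k Φ x c S) {Y : Finset V} (hY : Y ⊆ nb K x) (h : Y.card < S.card) :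
    Y.card ≤ (NN K k Φ x c Y).card + (FR k Φ).card := by
  by_contra hcon
  have h1 := E.st.cs Y hY
  have h2 : Stt K k Φ x c Y := ⟨E.st.vc, hY, E.st.cs, by omega⟩
  have := E.mn _ _ h2
  omega

theorem Ext.lt' (E : Ext K k Φ x c S) {Y : Finset V} (hY : Y ⊆ S) {v : V} (hv : v ∈ S)
    (hvY : v ∉ Y) : Y.card ≤ (NN K k Φ x c Y).card + (FR k Φ).card := by
  refine E.lt (hY.trans E.st.sub) (card_lt_card ⟨hY, fun h => hvY (h hv)⟩)

theorem Jn.symm {v w : V} (h : Jn K k Φ x c v w) : Jn K k Φ x c w v := by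
  obtain ⟨F, h1, h2, h3, h4, h5⟩ := h
  exact ⟨F, h1, h2, h4, h3, h5⟩

theorem Jn.congr {c' : V → V → ℕ} (h : ∀ a ∈ NF k Φ x, ∀ z,
    (a ∈ avl (delV K x) k Φ c z → a ∈ avl (delV K x) k Φ c' z)) {v w : V}
    (hJ : Jn K k Φ x c v w) : Jn K k Φ x c' v w := by
  obtain ⟨F, h1, h2, h3, h4, f, hf, hm⟩ := hJ
  exact ⟨F, h1, h2, h3, h4, f, hf, fun z hz => ⟨h _ (hm z hz).2 z (hm z hz).1, (hm z hz).2⟩⟩

theorem notJ (H : Cx K k Φ x) (E : Ext K k Φ x c S) {v w : V} (hv : v ∈ S) (hw : w ∈ S)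
    (hJ : ¬ Jn K k Φ x c v w) : ∃ Y ⊆ S, v ∉ Y ∧ w ∉ Y ∧
      (NN K k Φ x c Y).card + (FR k Φ).card ≤ Y.card := by
  by_contra hcon
  push Not at hcon
  apply hJ
  have hr := H.rm2
  have h1 : ∀ X ⊆ ((nb K x).erase v).erase w,
      X.card ≤ (NN K k Φ x c X).card + ((FR k Φ).card - 1) := by
    intro X hX
    have hXT : X ⊆ nb K x := hX.trans ((erase_subset _ _).trans (erase_subset _ _))
    have hvX : v ∉ X := by
      intro h
      have := hX h
      simp at this
    have hwX : w ∉ X := by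
      intro h
      have := hX h
      simp at this
    have h2 := hcon (X ∩ S) inter_subset_right (fun h => hvX (mem_inter.1 h).1)
      (fun h => hwX (mem_inter.1 h).1)
    have h3 := E.st.cs (X ∪ S) (union_subset hXT E.st.sub)
    have h4 := NN_sub (K := K) (k := k) (Φ := Φ) (x := x) (c := c) X S
    have h5 := card_union_add_card_inter X S
    have h6 := E.st.eq
    omega
  obtain ⟨F, hF, hd, hl⟩ := hall_lb h1
  have hFT : insert v (insert w F) ⊆ nb K x := by
    intro z hz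
    rw [mem_insert, mem_insert] at hz
    rcases hz with rfl | rfl | hz
    · exact E.st.sub hv
    · exact E.st.sub hw
    · exact mem_of_mem_erase (mem_of_mem_erase (hF hz))
  have he : nb K x \ insert v (insert w F) = (((nb K x).erase v).erase w) \ F := by
    ext z
    simp only [mem_sdiff, mem_insert, mem_erase]
    tauto
  have hl' : Lb (avl (delV K x) k Φ c) (NF k Φ x) (nb K x \ insert v (insert w F)) := by
    rw [he]
    exact hl
  have h2 := H.mp1 c E.st.vc _ hFT hl'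
  have h3 := card_insert_le v (insert w F)
  have h4 := card_insert_le w F
  exact ⟨_, hFT, by omega, mem_insert_self _ _, mem_insert_of_mem (mem_insert_self _ _), hl'⟩

theorem getX (H : Cx K k Φ x) (E : Ext K k Φ x c S) {v w : V} (hv : v ∈ S) (hw : w ∈ S)
    (hJ : ¬ Jn K k Φ x c v w) : ∃ X ⊆ S, v ∉ X ∧ w ∉ X ∧
      X.card = (NN K k Φ x c X).card + (FR k Φ).card ∧
      ∀ u ∈ X, ∀ u' ∈ S, u' ∉ X → Jn K k Φ x c u u' := by
  classical
  obtain ⟨Y0, hY0, hvY0, hwY0, hc0⟩ := notJ H E hv hw hJ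
  obtain ⟨X, hX, hmin⟩ := exists_min_image (S.powerset.filter fun Y => v ∉ Y ∧ w ∉ Y ∧
    (NN K k Φ x c Y).card + (FR k Φ).card ≤ Y.card) card
    ⟨Y0, mem_filter.2 ⟨mem_powerset.2 hY0, hvY0, hwY0, hc0⟩⟩
  rw [mem_filter, mem_powerset] at hX
  obtain ⟨hXS, hvX, hwX, hXc⟩ := hX
  have h1 := E.lt' hXS hv hvX
  refine ⟨X, hXS, hvX, hwX, by omega, ?_⟩
  intro u hu u' hu' hu'X
  by_contra hcon
  obtain ⟨Y, hY, huY, hu'Y, hYc⟩ := notJ H E (hXS hu) hu' hcon
  have h2 := E.lt' (union_subset hXS hY) hu' (by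
    rw [mem_union]
    tauto)
  have h3 := NN_sub (K := K) (k := k) (Φ := Φ) (x := x) (c := c) X Y
  have h4 := card_union_add_card_inter X Y
  have h5 := hmin (X ∩ Y) (by
    rw [mem_filter, mem_powerset]
    exact ⟨inter_subset_left.trans hXS, fun h => hvX (mem_inter.1 h).1,
      fun h => hwX (mem_inter.1 h).1, by omega⟩)
  have h6 : (X ∩ Y).card < X.card := by
    refine card_lt_card ⟨inter_subset_left, fun h => huY (mem_inter.1 (h hu)).2⟩
  omega

theorem stt_swap (E : Ext K k Φ x c S) {c' : V → V → ℕ} (hc' : VC (delV K x) k Φ c') (g : ℕ)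
    (h1 : ∀ a ∈ NF k Φ x, a ≠ g → ∀ z,
      (a ∈ avl (delV K x) k Φ c' z ↔ a ∈ avl (delV K x) k Φ c z))
    (h2 : g ∈ NF k Φ x → g ∈ NN K k Φ x c S ∧ g ∈ NN K k Φ x c' S) : Stt K k Φ x c' S := by
  have hS : NN K k Φ x c' S = NN K k Φ x c S := by
    ext a
    by_cases ha : a ∈ NF k Φ x
    · by_cases hag : a = g
      · subst hag
        exact ⟨fun _ => (h2 ha).1, fun _ => (h2 ha).2⟩
      · rw [mem_NN, mem_NN]
        have : (∃ w ∈ S, a ∈ avl (delV K x) k Φ c' w) ↔ ∃ w ∈ S, a ∈ avl (delV K x) k Φ c w :=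
          exists_congr fun w => and_congr_right fun _ => h1 a ha hag w
        rw [this]
    · rw [mem_NN, mem_NN]
      tauto
  refine ⟨hc', E.st.sub, ?_, by rw [hS]; exact E.st.eq⟩
  intro X hX
  by_cases hg : g ∈ NF k Φ x
  · obtain ⟨hg1, hg2⟩ := h2 hg
    have h3 := E.st.cs (X ∪ S) (union_subset hX E.st.sub)
    set B := NN K k Φ x c (X ∪ S) \ NN K k Φ x c S with hB
    have h4 : B.card + (NN K k Φ x c S).card = (NN K k Φ x c (X ∪ S)).card :=
      card_sdiff_add_card_eq_card (NN_mono subset_union_right)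
    have h5 := card_union_add_card_inter X S
    have h6 := E.st.eq
    have h7 : NN K k Φ x c' (X ∩ S) ∪ B ⊆ NN K k Φ x c' X := by
      refine union_subset (NN_mono inter_subset_left) ?_
      intro a ha
      rw [hB, mem_sdiff] at ha
      obtain ⟨⟨w, hw, h7⟩, h8⟩ := mem_NN.1 ha.1
      have hag : a ≠ g := by
        rintro rfl
        exact ha.2 hg1
      have hwS : w ∉ S := fun h => ha.2 (mem_NN.2 ⟨⟨w, h, h7⟩, h8⟩)
      exact mem_NN.2 ⟨⟨w, (mem_union.1 hw).resolve_right hwS, (h1 a h8 hag w).2 h7⟩, h8⟩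
    have h8 : Disjoint (NN K k Φ x c' (X ∩ S)) B := by
      rw [disjoint_left]
      intro a ha hb
      rw [hB, mem_sdiff] at hb
      apply hb.2
      rw [← hS]
      exact NN_mono inter_subset_right ha
    have h9 := card_le_card h7
    rw [card_union_of_disjoint h8] at h9
    have h10 : (X ∩ S).card ≤ (NN K k Φ x c' (X ∩ S)).card + (FR k Φ).card + 1 := by
      by_cases h : (X ∩ S) = S
      · rw [h, hS]
        exact E.st.eq.le
      · have h11 : (X ∩ S).card < S.card := by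
          refine card_lt_card (Finset.ssubset_iff_subset_ne.2 ⟨inter_subset_right, h⟩)
        have h12 := E.lt (inter_subset_left.trans hX) h11
        have h13 : NN K k Φ x c (X ∩ S) ⊆ insert g (NN K k Φ x c' (X ∩ S)) := by
          intro a ha
          rw [mem_insert]
          by_cases hag : a = g
          · exact Or.inl hag
          · right
            obtain ⟨⟨w, hw, h7⟩, h8⟩ := mem_NN.1 ha
            exact mem_NN.2 ⟨⟨w, hw, (h1 a h8 hag w).2 h7⟩, h8⟩
        have h14 := card_le_card h13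
        have h15 := card_insert_le g (NN K k Φ x c' (X ∩ S))
        omega
    omega
  · have h3 : NN K k Φ x c' X = NN K k Φ x c X := by
      ext a
      rw [mem_NN, mem_NN]
      by_cases ha : a ∈ NF k Φ x
      · have hag : a ≠ g := fun h => hg (h ▸ ha)
        have : (∃ w ∈ X, a ∈ avl (delV K x) k Φ c' w) ↔ ∃ w ∈ X, a ∈ avl (delV K x) k Φ c w :=
          exists_congr fun w => and_congr_right fun _ => h1 a ha hag w
        rw [this]
      · tauto
    rw [h3]
    exact E.st.cs X hX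

/-- result of a swap -/
structure Sw (K : SimpleGraph V) (k : ℕ) (Φ : V → Finset ℕ) (x : V) (c c' : V → V → ℕ)
    (g b : ℕ) (u : V) : Prop where
  vc : VC (delV K x) k Φ c'
  inn : ∀ z, Rel (delV K x) c g b u z → ∀ a,
    a ∈ avl (delV K x) k Φ c' z ↔ Equiv.swap g b a ∈ avl (delV K x) k Φ c z
  out : ∀ z, ¬ Rel (delV K x) c g b u z → avl (delV K x) k Φ c' z = avl (delV K x) k Φ c z

theorem doSwap (hc : VC (delV K x) k Φ c) {g b : ℕ} (hg : g < k) (hb : b ∈ FR k Φ) (u : V)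
    (hQ : ∀ z, Rel (delV K x) c g b u z → g ∉ Φ z) : ∃ c', Sw K k Φ x c c' g b u := by
  obtain ⟨c', h1, h2, h3⟩ := swapVC hc hg (mem_FR.1 hb).1 u
    (fun z hz => ⟨hQ z hz, (mem_FR.1 hb).2 z⟩)
  exact ⟨c', h1, h2, h3⟩

theorem Sw.other {c' : V → V → ℕ} {g b : ℕ} {u : V} (h : Sw K k Φ x c c' g b u) {a : ℕ}
    (hg : a ≠ g) (hb : a ≠ b) (z : V) :
    a ∈ avl (delV K x) k Φ c' z ↔ a ∈ avl (delV K x) k Φ c z := by
  by_cases hz : Rel (delV K x) c g b u z
  · rw [h.inn z hz, Equiv.swap_apply_of_ne_of_ne hg hb]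
  · rw [h.out z hz]

theorem Sw.in_b {c' : V → V → ℕ} {g b : ℕ} {u : V} (h : Sw K k Φ x c c' g b u) {z : V}
    (hz : Rel (delV K x) c g b u z) :
    b ∈ avl (delV K x) k Φ c' z ↔ g ∈ avl (delV K x) k Φ c z := by
  rw [h.inn z hz, Equiv.swap_apply_right]

theorem Sw.in_g {c' : V → V → ℕ} {g b : ℕ} {u : V} (h : Sw K k Φ x c c' g b u) {z : V}
    (hz : Rel (delV K x) c g b u z) :
    g ∈ avl (delV K x) k Φ c' z ↔ b ∈ avl (delV K x) k Φ c z := by
  rw [h.inn z hz, Equiv.swap_apply_left]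

theorem fr_nf {a b : ℕ} (hb : b ∈ FR k Φ) (ha : a ∈ NF k Φ x) : a ≠ b := by
  rintro rfl
  obtain ⟨_, ⟨v, hv⟩, _⟩ := mem_NF.1 ha
  exact (mem_FR.1 hb).2 v hv

/-- labellings that leave a given vertex unlabelled and do not use a given colour -/
theorem unused (H : Cx K k Φ x) (E : Ext K k Φ x c S) : ∃ β ∈ NF k Φ x, ∀ w ∈ S,
    ∃ F ⊆ nb K x, w ∈ F ∧ F.card ≤ (FR k Φ).card + 1 ∧ ∃ f : V → ℕ,
      Set.InjOn f ((nb K x \ F : Finset V) : Set V) ∧
      ∀ z ∈ nb K x \ F, f z ∈ avl (delV K x) k Φ c z ∧ f z ∈ NF k Φ x ∧ f z ≠ β := by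
  classical
  obtain ⟨F0, hF0, hd0, hl0⟩ := hall_lb (T := nb K x) (d := (FR k Φ).card + 1) (by
    intro X hX
    have := E.st.cs X hX
    omega)
  have h0 := H.mp1 c E.st.vc F0 hF0 hl0
  have h0' := lb_hall hF0 hl0
  obtain ⟨f0, hf0, hm0⟩ := hl0
  have hES := E.st.eq
  have h1 : F0 ⊆ S := by
    have h2 := h0' S E.st.sub
    have h3 : (S ∩ F0).card ≤ F0.card := card_le_card inter_subset_right
    have h4 : S ∩ F0 = F0 := eq_of_subset_of_card_le inter_subset_right (by omega)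
    rw [← h4]
    exact inter_subset_left
  have hcF : F0.card = (FR k Φ).card + 1 := by omega
  have h2 : (S \ F0).image f0 = NN K k Φ x c S := by
    apply eq_of_subset_of_card_le
    · intro a ha
      rw [mem_image] at ha
      obtain ⟨z, hz, rfl⟩ := ha
      rw [mem_sdiff] at hz
      have := hm0 z (mem_sdiff.2 ⟨E.st.sub hz.1, hz.2⟩)
      exact mem_NN.2 ⟨⟨z, hz.1, this.1⟩, this.2⟩
    · rw [card_image_of_injOn, card_sdiff_of_subset h1]
      · omega
      · refine hf0.mono ?_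
        intro z hz
        have hz : z ∈ S \ F0 := hz
        rw [mem_sdiff] at hz
        exact mem_sdiff.2 ⟨E.st.sub hz.1, hz.2⟩
  have h3 : ((nb K x \ F0).image f0).card < (NF k Φ x).card := by
    have h4 := card_image_le (s := nb K x \ F0) (f := f0)
    rw [card_sdiff_of_subset hF0] at h4
    have h5 := H.tcard
    have h6 := card_le_card hF0
    omega
  obtain ⟨β, hβ, hβ'⟩ := exists_mem_notMem_of_card_lt_card h3
  have hβS : β ∉ NN K k Φ x c S := by
    rw [← h2]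
    intro h
    apply hβ'
    exact image_subset_image (sdiff_subset_sdiff E.st.sub (subset_refl _)) h
  refine ⟨β, hβ, ?_⟩
  intro w hw
  obtain ⟨F1, hF1, hd1, f1, hf1, hm1⟩ := hall_lb (T := S.erase w) (d := (FR k Φ).card) (by
    intro X hX
    exact E.lt' (hX.trans (erase_subset _ _)) hw (fun h => by simpa using hX h))
  refine ⟨insert w F1, ?_, mem_insert_self _ _, ?_, fun z => if z ∈ S then f1 z else f0 z, ?_, ?_⟩
  · intro z hz
    rw [mem_insert] at hz
    rcases hz with rfl | hz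
    · exact E.st.sub hw
    · exact E.st.sub (mem_of_mem_erase (hF1 hz))
  · have := card_insert_le w F1
    omega
  · have key1 : ∀ z ∈ nb K x \ insert w F1, z ∈ S → z ∈ S.erase w \ F1 := by
      intro z hz hzS
      rw [mem_sdiff, mem_insert, not_or] at hz
      rw [mem_sdiff, mem_erase]
      exact ⟨⟨hz.2.1, hzS⟩, hz.2.2⟩
    have key2 : ∀ z ∈ nb K x \ insert w F1, z ∉ S → z ∈ nb K x \ F0 := by
      intro z hz hzS
      rw [mem_sdiff] at hz ⊢
      exact ⟨hz.1, fun h => hzS (h1 h)⟩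
    have key3 : ∀ z ∈ nb K x \ insert w F1, z ∈ S → f1 z ∈ NN K k Φ x c S := by
      intro z hz hzS
      have := hm1 z (key1 z hz hzS)
      exact mem_NN.2 ⟨⟨z, hzS, this.1⟩, this.2⟩
    have key4 : ∀ z ∈ nb K x \ insert w F1, z ∉ S → f0 z ∉ NN K k Φ x c S := by
      intro z hz hzS hcon
      rw [← h2, mem_image] at hcon
      obtain ⟨y, hy, he⟩ := hcon
      rw [mem_sdiff] at hy
      have : y = z := hf0 (mem_coe.2 (mem_sdiff.2 ⟨E.st.sub hy.1, hy.2⟩)) (mem_coe.2 (key2 z hz hzS)) he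
      exact hzS (this ▸ hy.1)
    intro z hz z' hz' he
    have hz := mem_coe.1 hz
    have hz' := mem_coe.1 hz'
    dsimp only at he
    by_cases h5 : z ∈ S <;> by_cases h6 : z' ∈ S
    · rw [if_pos h5, if_pos h6] at he
      exact hf1 (mem_coe.2 (key1 z hz h5)) (mem_coe.2 (key1 z' hz' h6)) he
    · rw [if_pos h5, if_neg h6] at he
      exact absurd (he ▸ key3 z hz h5) (key4 z' hz' h6)
    · rw [if_neg h5, if_pos h6] at he
      exact absurd (he ▸ key3 z' hz' h6) (key4 z hz h5)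
    · rw [if_neg h5, if_neg h6] at he
      exact hf0 (mem_coe.2 (key2 z hz h5)) (mem_coe.2 (key2 z' hz' h6)) he
  · intro z hz
    have hz0 := hz
    rw [mem_sdiff, mem_insert, not_or] at hz
    dsimp only
    split_ifs with h5
    · have h6 : z ∈ S.erase w \ F1 := mem_sdiff.2 ⟨mem_erase.2 ⟨hz.2.1, h5⟩, hz.2.2⟩
      have h7 := hm1 z h6
      refine ⟨h7.1, h7.2, ?_⟩
      rintro rfl
      exact hβS (mem_NN.2 ⟨⟨z, h5, h7.1⟩, h7.2⟩)
    · have h6 : z ∈ nb K x \ F0 := mem_sdiff.2 ⟨hz.1, fun h => h5 (h1 h)⟩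
      have h7 := hm0 z h6
      refine ⟨h7.1, h7.2, ?_⟩
      rintro rfl
      exact hβ' (mem_image_of_mem _ h6)

/-- (b) -/
theorem le_two (H : Cx K k Φ x) (E : Ext K k Φ x c S) {b : ℕ} (hb : b ∈ FR k Φ) :
    (W K k Φ x c S b).card ≤ 2 := by
  classical
  obtain ⟨β, hβ, hun⟩ := unused H E
  have hβb := fr_nf hb hβ
  refine le_trans ?_ (H.c2 β)
  unfold cl
  refine inj_count (g := β) (b := b) E.st.vc.pc _ _ ?_
  intro w hw
  rw [mem_W] at hw
  have hmb : Miss (delV K x) c w b := avl_miss hw.2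
  refine ⟨Or.inr hmb, ?_⟩
  by_contra hcon
  push Not at hcon
  have hQ : ∀ z, Rel (delV K x) c β b w z → β ∉ Φ z := by
    intro z hz hβz
    obtain ⟨h1, h2⟩ := hcon z (mem_filter.2 ⟨mem_univ _, hβz⟩) hz (Or.inl (phi_miss E.st.vc hβz))
    exact h2 (h1 ▸ phi_miss E.st.vc hβz) hmb
  obtain ⟨c', hs⟩ := doSwap E.st.vc (mem_NF.1 hβ).1 hb w hQ
  obtain ⟨F, hF, hwF, hFc, f, hf, hm⟩ := hun w hw.1
  have h1 := H.mp1 c' hs.vc (F.erase w) ((erase_subset _ _).trans hF) (by
    refine ⟨fun z => if z = w then β else f z, ?_, ?_⟩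
    · intro z hz z' hz' he
      have hz := mem_sdiff.1 (mem_coe.1 hz)
      have hz' := mem_sdiff.1 (mem_coe.1 hz')
      rw [mem_erase, not_and] at hz hz'
      dsimp only at he
      by_cases h5 : z = w <;> by_cases h6 : z' = w
      · rw [h5, h6]
      · rw [if_pos h5, if_neg h6] at he
        exact absurd he.symm (hm z' (mem_sdiff.2 ⟨hz'.1, hz'.2 h6⟩)).2.2
      · rw [if_neg h5, if_pos h6] at he
        exact absurd he (hm z (mem_sdiff.2 ⟨hz.1, hz.2 h5⟩)).2.2
      · rw [if_neg h5, if_neg h6] at he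
        exact hf (mem_coe.2 (mem_sdiff.2 ⟨hz.1, hz.2 h5⟩))
          (mem_coe.2 (mem_sdiff.2 ⟨hz'.1, hz'.2 h6⟩)) he
    · intro z hz
      have hz := mem_sdiff.1 hz
      rw [mem_erase, not_and] at hz
      dsimp only
      by_cases h5 : z = w
      · rw [if_pos h5, h5]
        exact ⟨(hs.in_g Rel.rfl').2 hw.2, hβ⟩
      · rw [if_neg h5]
        have := hm z (mem_sdiff.2 ⟨hz.1, hz.2 h5⟩)
        exact ⟨(hs.other this.2.2 (fr_nf hb this.2.1) z).2 this.1, this.2.1⟩)
  rw [card_erase_of_mem hwF] at h1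
  omega

/-- the far end of a component -/
theorem target (E : Ext K k Φ x c S) {g b : ℕ} (hb : b ∈ FR k Φ) {w : V} (hw : w ∈ S)
    (hgw : g ∈ avl (delV K x) k Φ c w) (hbw : b ∉ avl (delV K x) k Φ c w)
    (hg : (g ∈ NF k Φ x ∧ 3 ≤ (W K k Φ x c S g).card) ∨ g ∈ Φ x) :
    ∃ v, Rel (delV K x) c g b w v ∧ ((g ∈ Φ v ∧ v ≠ x) ∨ v ∈ W K k Φ x c S b) := by
  classical
  by_contra hcon
  push Not at hcon
  have hwx : w ≠ x := by
    rintro rfl
    exact (mem_nb.1 (E.st.sub hw)).ne rfl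
  have hgfr : g ∉ FR k Φ := by
    intro h
    rcases hg with h1 | h1
    · exact fr_nf h h1.1 rfl
    · exact (mem_FR.1 h).2 x h1
  have hQ : ∀ z, Rel (delV K x) c g b w z → g ∉ Φ z := by
    intro z hz hgz
    have h1 := (hcon z hz).1 hgz
    rw [h1] at hz
    exact hwx (x_iso E.st.vc hz.symm)
  obtain ⟨c', hs⟩ := doSwap E.st.vc (mem_avl.1 hgw).1 hb w hQ
  have hst : Stt K k Φ x c' S := by
    refine stt_swap E hs.vc g (fun a ha hag z => hs.other hag (fr_nf hb ha) z) ?_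
    intro hgN
    refine ⟨mem_NN.2 ⟨⟨w, hw, hgw⟩, hgN⟩, ?_⟩
    have h3 : 3 ≤ (W K k Φ x c S g).card := by
      rcases hg with h | h
      · exact h.2
      · exact absurd h (mem_NF.1 hgN).2.2
    obtain ⟨p, hp, q, hq, s, hs', hpq, hps, hqs⟩ := two_lt_card.1 h3
    have : ∃ z ∈ W K k Φ x c S g, ¬ Rel (delV K x) c g b w z := by
      by_contra hall
      push Not at hall
      rcases three E.st.vc.pc ((hall p hp).symm.trans (hall q hq)) ((hall p hp).symm.trans
        (hall s hs')) (Or.inl (avl_miss (mem_W.1 hp).2)) (Or.inl (avl_miss (mem_W.1 hq).2))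
        (Or.inl (avl_miss (mem_W.1 hs').2)) with h | h | h
      · exact hpq h
      · exact hps h
      · exact hqs h
    obtain ⟨z, hz, hnz⟩ := this
    rw [mem_W] at hz
    refine mem_NN.2 ⟨⟨z, hz.1, ?_⟩, hgN⟩
    rw [hs.out z hnz]
    exact hz.2
  have h1 := E.mx c' S hst rfl
  have h2 : Om K k Φ x c S < Om K k Φ x c' S := by
    unfold Om
    have hsub : ∀ a ∈ FR k Φ, W K k Φ x c S a ⊆ W K k Φ x c' S a := by
      intro a ha z hz
      rw [mem_W] at hz ⊢
      refine ⟨hz.1, ?_⟩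
      by_cases hr : Rel (delV K x) c g b w z
      · have hab : a ≠ b := by
          rintro rfl
          exact (hcon z hr).2 (mem_W.2 hz)
        have hag : a ≠ g := by
          rintro rfl
          exact hgfr ha
        exact (hs.other hag hab z).2 hz.2
      · rw [hs.out z hr]
        exact hz.2
    refine sum_lt_sum (fun a ha => card_le_card (hsub a ha)) ⟨b, hb, card_lt_card ?_⟩
    refine ⟨hsub b hb, fun h => ?_⟩
    have h3 : w ∈ W K k Φ x c' S b := mem_W.2 ⟨hw, (hs.in_b Rel.rfl').2 hgw⟩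
    exact hbw (mem_W.1 (h h3)).2
  omega

/-- (c) -/
theorem count_c (E : Ext K k Φ x c S) {g b : ℕ} (hb : b ∈ FR k Φ)
    (hg : (g ∈ NF k Φ x ∧ 3 ≤ (W K k Φ x c S g).card) ∨ g ∈ Φ x) (Z : Finset V)
    (hZ : ∀ z ∈ Z, g ∈ Φ z ∧ z ∈ W K k Φ x c S b) :
    (W K k Φ x c S g).card ≤ ((((univ.filter fun v => g ∈ Φ v).erase x) \ Z).card +
      ((W K k Φ x c S b) \ Z).card) := by
  classical
  have h1 : (W K k Φ x c S g \ W K k Φ x c S b).card ≤
      ((((univ.filter fun v => g ∈ Φ v).erase x) \ Z) ∪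
        ((W K k Φ x c S b \ W K k Φ x c S g) \ Z)).card := by
    refine inj_count (g := g) (b := b) E.st.vc.pc _ _ ?_
    intro w hw
    rw [mem_sdiff] at hw
    obtain ⟨hw1, hw2⟩ := hw
    have hw3 := mem_W.1 hw1
    have hmg : Miss (delV K x) c w g := avl_miss hw3.2
    refine ⟨Or.inl hmg, ?_⟩
    have hnb : b ∉ avl (delV K x) k Φ c w := fun h => hw2 (mem_W.2 ⟨hw3.1, h⟩)
    obtain ⟨v, hv, hv'⟩ := target E hb hw3.1 hw3.2 hnb hg
    have hvZ : v ∉ Z := by
      intro h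
      obtain ⟨h2, h3⟩ := hZ v h
      have h4 := iso E.st.vc.pc (phi_miss E.st.vc h2) (avl_miss (mem_W.1 h3).2) hv.symm
      rw [h4] at hw2
      exact hw2 h3
    rcases hv' with ⟨h2, h3⟩ | h2
    · refine ⟨v, ?_, hv, Or.inl (phi_miss E.st.vc h2), ?_⟩
      · rw [mem_union, mem_sdiff, mem_erase, mem_filter]
        exact Or.inl ⟨⟨h3, mem_univ _, h2⟩, hvZ⟩
      · intro h4
        rw [h4] at h2
        exact absurd h2 (mem_avl.1 hw3.2).2.1
    · refine ⟨v, ?_, hv, Or.inr (avl_miss (mem_W.1 h2).2), ?_⟩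
      · rw [mem_union, mem_sdiff, mem_sdiff, mem_sdiff]
        refine Or.inr ⟨⟨h2, fun h3 => ?_⟩, hvZ⟩
        have h4 := iso E.st.vc.pc (avl_miss (mem_W.1 h3).2) (avl_miss (mem_W.1 h2).2) hv.symm
        rw [h4] at hw2
        exact hw2 h2
      · intro h4
        rw [h4] at h2
        exact absurd h2 hw2
  have h2 := card_union_le ((((univ.filter fun v => g ∈ Φ v).erase x) \ Z))
        ((W K k Φ x c S b \ W K k Φ x c S g) \ Z)
  have h3 := card_sdiff_add_card_inter (W K k Φ x c S g) (W K k Φ x c S b)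
  have h4 : ((W K k Φ x c S b \ W K k Φ x c S g) \ Z).card +
      (W K k Φ x c S g ∩ W K k Φ x c S b).card ≤ ((W K k Φ x c S b) \ Z).card := by
    rw [← card_union_of_disjoint]
    · apply card_le_card
      intro z hz
      rw [mem_union, mem_sdiff, mem_sdiff, mem_inter] at hz
      rw [mem_sdiff]
      rcases hz with h | h
      · exact ⟨h.1.1, h.2⟩
      · refine ⟨h.2, fun h5 => ?_⟩
        exact absurd (hZ z h5).1 (mem_avl.1 (mem_W.1 h.1).2).2.1
    · rw [disjoint_left]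
      intro z hz hz'
      rw [mem_sdiff, mem_sdiff] at hz
      exact hz.1.2 (mem_inter.1 hz').1
  omega

end A2

end Run7.h24.U
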