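import Pool.Agent.Run7.h932.U.Stm

/-! Kempe swaps for colourings with forbidden colours, Hall's theorem with deficiency. -/

set_option autoImplicit false
set_option linter.unusedVariables false
set_option linter.unusedSectionVars false

namespace Run7.h24.U

open Finset Pool.Q11.TwoEnd Pool.Q6.CI Run7.h932

section kempe

variable {V : Type}

theorem mem_avl {G : SimpleGraph V} {k : ℕ} {Φ : V → Finset ℕ} {c : V → V → ℕ} {w : V} {a : ℕ} :
    a ∈ avl G k Φ c w ↔ a < k ∧ a ∉ Φ w ∧ Miss G c w a := by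
  classical
  unfold avl
  rw [mem_filter, mem_range]

/-- the graph of the edges with two given colours -/
def KG (G : SimpleGraph V) (c : V → V → ℕ) (g b : ℕ) : SimpleGraph V :=
  SimpleGraph.fromRel fun v w => G.Adj v w ∧ (c v w = g ∨ c v w = b)

/-- in the same Kempe component -/
def Rel (G : SimpleGraph V) (c : V → V → ℕ) (g b : ℕ) (p q : V) : Prop := (KG G c g b).Reachable p q

/-- at most one of the two colours occurs -/
def Dg (G : SimpleGraph V) (c : V → V → ℕ) (g b : ℕ) (z : V) : Prop := Miss G c z g ∨ Miss G c z b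

variable {G : SimpleGraph V} {k : ℕ} {Φ : V → Finset ℕ} {c : V → V → ℕ} {g b : ℕ}

theorem KG_adj (hc : PC G k c) {v w : V} :
    (KG G c g b).Adj v w ↔ G.Adj v w ∧ (c v w = g ∨ c v w = b) := by
  unfold KG
  rw [SimpleGraph.fromRel_adj]
  constructor
  · rintro ⟨_, h | h⟩
    · exact h
    · refine ⟨h.1.symm, ?_⟩
      rw [hc.symm v w h.1.symm]
      exact h.2
  · intro h
    exact ⟨h.1.ne, Or.inl h⟩

theorem Rel.rfl' {p : V} : Rel G c g b p p := SimpleGraph.Reachable.refl _

theorem Rel.symm {p q : V} (h : Rel G c g b p q) : Rel G c g b q p := SimpleGraph.Reachable.symm h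

theorem Rel.trans {p q s : V} (h : Rel G c g b p q) (h' : Rel G c g b q s) : Rel G c g b p s :=
  SimpleGraph.Reachable.trans h h'

theorem rel_adj (hc : PC G k c) {v w : V} (h : G.Adj v w) (h' : c v w = g ∨ c v w = b) :
    Rel G c g b v w := ((KG_adj hc).2 ⟨h, h'⟩).reachable

theorem Dg.one (hc : PC G k c) {z : V} (h : Dg G c g b z) (a d : V) (ha : (KG G c g b).Adj z a)
    (hd : (KG G c g b).Adj z d) : a = d := by
  rw [KG_adj hc] at ha hd
  rcases h with h | h
  · have h1 : c z a = b := ha.2.resolve_left (h a ha.1)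
    have h2 : c z d = b := hd.2.resolve_left (h d hd.1)
    exact hc.inj z a d ha.1 hd.1 (h1.trans h2.symm)
  · have h1 : c z a = g := ha.2.resolve_right (h a ha.1)
    have h2 : c z d = g := hd.2.resolve_right (h d hd.1)
    exact hc.inj z a d ha.1 hd.1 (h1.trans h2.symm)

theorem deg_two (hc : PC G k c) (v a d e : V) (ha : (KG G c g b).Adj v a)
    (hd : (KG G c g b).Adj v d) (he : (KG G c g b).Adj v e) : a = d ∨ a = e ∨ d = e := by
  rw [KG_adj hc] at ha hd he
  have key : ∀ p q, G.Adj v p → G.Adj v q → c v p = c v q → p = q := fun p q => hc.inj v p q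
  rcases ha.2 with h1 | h1 <;> rcases hd.2 with h2 | h2 <;> rcases he.2 with h3 | h3
  · exact Or.inl (key _ _ ha.1 hd.1 (h1.trans h2.symm))
  · exact Or.inl (key _ _ ha.1 hd.1 (h1.trans h2.symm))
  · exact Or.inr (Or.inl (key _ _ ha.1 he.1 (h1.trans h3.symm)))
  · exact Or.inr (Or.inr (key _ _ hd.1 he.1 (h2.trans h3.symm)))
  · exact Or.inr (Or.inr (key _ _ hd.1 he.1 (h2.trans h3.symm)))
  · exact Or.inr (Or.inl (key _ _ ha.1 he.1 (h1.trans h3.symm)))
  · exact Or.inl (key _ _ ha.1 hd.1 (h1.trans h2.symm))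
  · exact Or.inl (key _ _ ha.1 hd.1 (h1.trans h2.symm))

/-- a component has at most two ends -/
theorem three (hc : PC G k c) {p q s : V} (hq : Rel G c g b p q) (hs : Rel G c g b p s)
    (h1 : Dg G c g b p) (h2 : Dg G c g b q) (h3 : Dg G c g b s) : p = q ∨ p = s ∨ q = s := by
  by_cases hpq : p = q
  · exact Or.inl hpq
  by_cases hps : p = s
  · exact Or.inr (Or.inl hps)
  exact Or.inr (Or.inr (comp_two (KG G c g b) (deg_two hc) (h1.one hc) (h2.one hc) (h3.one hc) hpq
    hps hq hs))

/-- isolated vertices -/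
theorem iso (hc : PC G k c) {p q : V} (h1 : Miss G c p g) (h2 : Miss G c p b)
    (h : Rel G c g b p q) : q = p := by
  obtain ⟨w⟩ := h
  cases w with
  | nil => rfl
  | cons h _ =>
    exfalso
    rw [KG_adj hc] at h
    rcases h.2 with h3 | h3
    · exact h1 _ h.1 h3
    · exact h2 _ h.1 h3

/-- the Kempe swap -/
theorem swapVC (hc : VC G k Φ c) (hg : g < k) (hb : b < k) (u : V)
    (hQ : ∀ z, Rel G c g b u z → g ∉ Φ z ∧ b ∉ Φ z) : ∃ c', VC G k Φ c' ∧
      (∀ z, Rel G c g b u z → ∀ a, a ∈ avl G k Φ c' z ↔ Equiv.swap g b a ∈ avl G k Φ c z) ∧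
      ∀ z, ¬ Rel G c g b u z → avl G k Φ c' z = avl G k Φ c z := by
  classical
  set P : V → Prop := fun z => Rel G c g b u z with hP
  set c' : V → V → ℕ := fun v w => if P v then Equiv.swap g b (c v w) else c v w with hc'
  have h1 : PC G k c' := swap_PC hc.pc hg hb P (by
    intro v w hvw h
    have := rel_adj hc.pc hvw h
    exact ⟨fun h' => h'.trans this, fun h' => h'.trans this.symm⟩)
  have hsw : ∀ a, a < k ↔ Equiv.swap g b a < k := by
    intro a
    rw [Equiv.swap_apply_def]
    split_ifs with h h'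
    · rw [h]; exact ⟨fun _ => hb, fun _ => hg⟩
    · rw [h']; exact ⟨fun _ => hg, fun _ => hb⟩
    · exact Iff.rfl
  have hph : ∀ z, P z → ∀ a, a ∈ Φ z ↔ Equiv.swap g b a ∈ Φ z := by
    intro z hz a
    obtain ⟨h2, h3⟩ := hQ z hz
    rw [Equiv.swap_apply_def]
    split_ifs with h h'
    · rw [h]; exact ⟨fun h => absurd h h2, fun h => absurd h h3⟩
    · rw [h']; exact ⟨fun h => absurd h h3, fun h => absurd h h2⟩
    · exact Iff.rfl
  refine ⟨c', ⟨h1, ?_⟩, ?_, ?_⟩
  · intro i j hij
    show (if P i then Equiv.swap g b (c i j) else c i j) ∉ Φ i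
    split_ifs with h
    · rw [← hph i h]
      exact hc.av i j hij
    · exact hc.av i j hij
  · intro z hz a
    rw [mem_avl, mem_avl, ← hsw, ← hph z hz]
    have : Miss G c' z a ↔ Miss G c z (Equiv.swap g b a) := by
      unfold Miss
      refine forall_congr' fun w => forall_congr' fun _ => ?_
      have h2 : c' z w = Equiv.swap g b (c z w) := if_pos hz
      rw [h2, not_iff_not]
      constructor
      · intro h
        rw [← h, Equiv.swap_apply_self]
      · intro h
        rw [h, Equiv.swap_apply_self]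
    rw [this]
  · intro z hz
    ext a
    rw [mem_avl, mem_avl]
    have : Miss G c' z a ↔ Miss G c z a := by
      unfold Miss
      refine forall_congr' fun w => forall_congr' fun _ => ?_
      have h2 : c' z w = c z w := if_neg hz
      rw [h2]
    rw [this]

theorem avl_miss {z : V} {a : ℕ} (h : a ∈ avl G k Φ c z) : Miss G c z a := (mem_avl.1 h).2.2

theorem phi_miss (hc : VC G k Φ c) {z : V} {a : ℕ} (h : a ∈ Φ z) : Miss G c z a :=
  fun w hw he => hc.av z w hw (he ▸ h)

/-- counting sources and targets in Kempe components -/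
theorem inj_count [DecidableEq V] (hc : PC G k c) (A B : Finset V)
    (h : ∀ w ∈ A, Dg G c g b w ∧ ∃ v ∈ B, Rel G c g b w v ∧ Dg G c g b v ∧
      (v = w → Miss G c w g ∧ Miss G c w b)) : A.card ≤ B.card := by
  classical
  choose! hD f hf hr hv hi using h
  refine Finset.card_le_card_of_injOn f (fun w hw => hf w hw) ?_
  intro w hw w' hw' he
  have hw : w ∈ A := hw
  have hw' : w' ∈ A := hw'
  have r1 : Rel G c g b (f w) w := (hr w hw).symm
  have r2 : Rel G c g b (f w) w' := by
    have := (hr w' hw').symm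
    rw [← show f w = f w' from he] at this
    exact this
  rcases three hc r1 r2 (hv w hw) (hD w hw) (hD w' hw') with h1 | h1 | h1
  · have := hi w hw h1
    rw [h1] at r2
    exact (iso hc this.1 this.2 r2).symm
  · have h2 : f w' = w' := (show f w = f w' from he).symm.trans h1
    have := hi w' hw' h2
    rw [h1] at r1
    exact iso hc this.1 this.2 r1
  · exact h1

end kempe

section hall

/-- Hall's theorem with deficiency -/
theorem hallD {V : Type} [DecidableEq V] (t : V → Finset ℕ) (T : Finset V) (d : ℕ)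
    (h : ∀ X ⊆ T, X.card ≤ (X.biUnion t).card + d) : ∃ F ⊆ T, F.card ≤ d ∧
      ∃ f : V → ℕ, Set.InjOn f ((T \ F : Finset V) : Set V) ∧ ∀ z ∈ T \ F, f z ∈ t z := by
  classical
  let t' : T → Finset (ℕ ⊕ Fin d) := fun w => (t w).disjSum univ
  obtain ⟨f, hf, hft⟩ := (Finset.all_card_le_biUnion_card_iff_exists_injective t').1 (by
    intro s
    rcases s.eq_empty_or_nonempty with rfl | hs
    · simp
    have h1 : s.biUnion t' = ((s.map (Function.Embedding.subtype _)).biUnion t).disjSum univ := by
      ext a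
      rcases a with a | a
      · simp [t']
      · simp only [t', mem_biUnion, inr_mem_disjSum, mem_univ, and_true, iff_true]
        exact hs
    rw [h1, card_disjSum, card_univ, Fintype.card_fin]
    have h2 := h (s.map (Function.Embedding.subtype _)) (by
      intro z hz
      rw [mem_map] at hz
      obtain ⟨w, _, rfl⟩ := hz
      exact w.2)
    rw [card_map] at h2
    exact h2)
  let F : Finset V := (univ.filter fun w : T => ∃ i, f w = Sum.inr i).map (Function.Embedding.subtype _)
  have hF : ∀ w : T, (w : V) ∈ F ↔ ∃ i, f w = Sum.inr i := by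
    intro w
    simp [F]
  refine ⟨F, ?_, ?_, fun z => if h : z ∈ T then Sum.elim id (fun _ => 0) (f ⟨z, h⟩) else 0, ?_, ?_⟩
  · intro z hz
    simp only [F, mem_map] at hz
    obtain ⟨w, _, rfl⟩ := hz
    exact w.2
  · rw [card_map]
    have : (univ.filter fun w : T => ∃ i, f w = Sum.inr i).card ≤
        ((univ : Finset (Fin d)).map (Function.Embedding.inr (α := ℕ))).card := by
      refine card_le_card_of_injOn f (fun w hw => ?_) (fun w _ w' _ he => hf he)
      obtain ⟨i, hi⟩ := (mem_filter.1 hw).2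
      rw [hi]
      simp
    rw [card_map] at this
    rwa [card_univ, Fintype.card_fin] at this
  · intro z hz z' hz' he
    rw [mem_coe, mem_sdiff] at hz hz'
    simp only [hz.1, hz'.1, dif_pos] at he
    have h1 : ∃ a, f ⟨z, hz.1⟩ = Sum.inl a := by
      rcases hfz : f ⟨z, hz.1⟩ with a | i
      · exact ⟨a, rfl⟩
      · exact absurd ((hF ⟨z, hz.1⟩).2 ⟨i, hfz⟩) hz.2
    have h2 : ∃ a, f ⟨z', hz'.1⟩ = Sum.inl a := by
      rcases hfz : f ⟨z', hz'.1⟩ with a | i
      · exact ⟨a, rfl⟩
      · exact absurd ((hF ⟨z', hz'.1⟩).2 ⟨i, hfz⟩) hz'.2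
    obtain ⟨a, ha⟩ := h1
    obtain ⟨a', ha'⟩ := h2
    rw [ha, ha'] at he
    have he' : a = a' := he
    have := hf (ha.trans (by rw [he', ha']))
    exact congrArg Subtype.val this
  · intro z hz
    rw [mem_sdiff] at hz
    simp only [hz.1, dif_pos]
    rcases hfz : f ⟨z, hz.1⟩ with a | i
    · have := hft ⟨z, hz.1⟩
      rw [hfz] at this
      simpa [t'] using this
    · exact absurd ((hF ⟨z, hz.1⟩).2 ⟨i, hfz⟩) hz.2

end hall

end Run7.h24.U
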